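import Mathlib

namespace WRatio

/-- Euclidean `n`-space. -/
abbrev EE (n : ℕ) := EuclideanSpace ℝ (Fin n)

/-- The support function `h_K(u) = max_{x ∈ K} ⟨x, u⟩`. -/
noncomputable def supp {n : ℕ} (K : Set (EE n)) (u : EE n) : ℝ :=
  sSup ((fun x => inner ℝ x u) '' K)

/-- The width function `w_K(u) = h_K(u) + h_K(-u)`. -/
noncomputable def width {n : ℕ} (K : Set (EE n)) (u : EE n) : ℝ :=
  supp K u + supp K (-u)

/-- The second derivative of a function at a point, as a bilinear form. -/
noncomputable def hess {n : ℕ} (h : EE n → ℝ) (x : EE n) : EE n →L[ℝ] EE n →L[ℝ] ℝ :=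
  fderiv ℝ (fderiv ℝ h) x

/-- The product of the principal radii of curvature of `∂K` at the boundary point with outer unit
normal `u`: the determinant of the second derivative of the support function restricted to the
orthogonal complement of `u`, in an orthonormal basis of that complement. -/
noncomputable def prodRadii {n : ℕ} (K : Set (EE n)) (u : EE n) : ℝ :=
  Matrix.det (Matrix.of fun i j =>
    hess (supp K) u ((stdOrthonormalBasis ℝ (ℝ ∙ u)ᗮ i : (ℝ ∙ u)ᗮ) : EE n)
      ((stdOrthonormalBasis ℝ (ℝ ∙ u)ᗮ j : (ℝ ∙ u)ᗮ) : EE n))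

/-- The Gaussian curvature of `∂K` at the boundary point with outer unit normal `u`, the
reciprocal of the product of the principal radii of curvature. -/
noncomputable def tau {n : ℕ} (K : Set (EE n)) (u : EE n) : ℝ := (prodRadii K u)⁻¹

/-- Convex bodies of class `C^r_+` (`r ≥ 2`), in terms of the support function: compact convex
sets with nonempty interior whose support function is `C^r` off the origin, with positive definite
second derivative on `u^⊥` for every unit vector `u` (positive radii of curvature). -/
structure ClassPlus {n : ℕ} (r : ℕ) (K : Set (EE n)) : Prop where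
  convex : Convex ℝ K
  compact : IsCompact K
  interior_nonempty : (interior K).Nonempty
  smooth : ContDiffOn ℝ r (supp K) {0}ᶜ
  pos : ∀ u : EE n, ‖u‖ = 1 → ∀ v : EE n, v ≠ 0 → inner ℝ v u = 0 → 0 < hess (supp K) u v v

/-- second elementary symmetric function of a bilinear form on `ℝ³` (standard basis). -/
noncomputable def e2 (A : EE 3 →L[ℝ] EE 3 →L[ℝ] ℝ) : ℝ :=
  (A (EuclideanSpace.single 0 1) (EuclideanSpace.single 0 1)) * (A (EuclideanSpace.single 1 1) (EuclideanSpace.single 1 1))
    - (A (EuclideanSpace.single 0 1) (EuclideanSpace.single 1 1)) ^ 2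
  + (A (EuclideanSpace.single 0 1) (EuclideanSpace.single 0 1)) * (A (EuclideanSpace.single 2 1) (EuclideanSpace.single 2 1))
    - (A (EuclideanSpace.single 0 1) (EuclideanSpace.single 2 1)) ^ 2
  + (A (EuclideanSpace.single 1 1) (EuclideanSpace.single 1 1)) * (A (EuclideanSpace.single 2 1) (EuclideanSpace.single 2 1))
    - (A (EuclideanSpace.single 1 1) (EuclideanSpace.single 2 1)) ^ 2

/-- the determinant of three vectors of `ℝ³` -/
def det3 (v w x : EE 3) : ℝ :=
  v 0 * (w 1 * x 2 - w 2 * x 1) - v 1 * (w 0 * x 2 - w 2 * x 0) + v 2 * (w 0 * x 1 - w 1 * x 0)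

/-- the barrier function `exp (L t)`, `t` the cotangent of the angle to the axis `e`. -/
noncomputable def wfun (L : ℝ) (e x : EE 3) : ℝ :=
  Real.exp (L * (inner ℝ x e / Real.sqrt (‖x‖ ^ 2 - (inner ℝ x e) ^ 2)))

end WRatio
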