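import Pool.Agent.Helper729.WR.Defs



namespace WRatio



theorem wfun_hom (L : ℝ) (e x : EE 3) (t : ℝ) (ht : 0 < t) : wfun L e (t • x) = wfun L e x := by
  unfold wfun
  have h1 : inner ℝ (t • x) e = t * inner ℝ x e := by
    rw [real_inner_smul_left]
  have h2 : ‖t • x‖ = t * ‖x‖ := by
    rw [norm_smul, Real.norm_eq_abs, abs_of_pos ht]
  rw [h1, h2]
  have h3 : (t * ‖x‖) ^ 2 - (t * inner ℝ x e) ^ 2 = t ^ 2 * (‖x‖ ^ 2 - (inner ℝ x e) ^ 2) := by
    ring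
  rw [h3, Real.sqrt_mul (by positivity), Real.sqrt_sq ht.le, mul_div_mul_left _ _ ht.ne']

end WRatio
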