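import Pool.Agent.Helper729.WR.Defs
import Pool.Agent.Helper729.WR.P_wfun_hom



namespace WRatio



theorem argmax (f : EE 3 → ℝ) (hf : ContinuousOn f {0}ᶜ)
    (hhom : ∀ t : ℝ, 0 < t → ∀ x, f (t • x) = f x) (heven : ∀ x, f (-x) = f x)
    (e : EE 3) (he : ‖e‖ = 1) (x1 : EE 3) (hx1 : ‖x1‖ = 1) (hlt : f e < f x1) :
    ∃ δ : ℝ, 0 < δ ∧ ∀ L : ℝ, 0 < L → ∃ ε : ℝ, 0 < ε ∧ ∃ x : EE 3, ‖x‖ = 1 ∧
      (inner ℝ x e) ^ 2 ≤ 1 - δ ∧ IsLocalMax (fun y => f y + ε * wfun L e y) x := by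
  obtain ⟨m, hm1, hm2⟩ := exists_between hlt
  have hne : ∀ x : EE 3, ‖x‖ = 1 → x ≠ 0 := by
    intro x hx h; rw [h, norm_zero] at hx; exact zero_ne_one hx
  have hfc : ∀ x : EE 3, x ≠ 0 → ContinuousAt f x := fun x hx =>
    hf.continuousAt (isOpen_compl_singleton.mem_nhds hx)
  obtain ⟨r, hr, hball⟩ : ∃ r > 0, ∀ x, dist x e < r → f x < m := by
    have h1 : ∀ᶠ x in nhds e, f x < m := (hfc e (hne e he)).eventually (gt_mem_nhds hm1)
    obtain ⟨r, hr, h⟩ := Metric.eventually_nhds_iff.mp h1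
    exact ⟨r, hr, fun x hx => h hx⟩
  set δ : ℝ := min (1 / 2) (r ^ 2 / 4) with hδdef
  have hδ : 0 < δ := by rw [hδdef]; positivity
  have hδ1 : δ ≤ 1 / 2 := min_le_left _ _
  have hδ2 : δ ≤ r ^ 2 / 4 := min_le_right _ _
  -- points close to the axis
  have hposcase : ∀ x : EE 3, ‖x‖ = 1 → 0 ≤ inner ℝ x e → 1 - δ ≤ (inner ℝ x e) ^ 2 → f x < m := by
    intro x hx h0 h1
    apply hball
    have hle : inner ℝ x e ≤ 1 := by
      have := real_inner_le_norm x e
      rw [hx, he] at this; linarith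
    have h2 : 1 - δ ≤ inner ℝ x e := by nlinarith
    rw [dist_eq_norm]
    have h3 : ‖x - e‖ ^ 2 = 2 - 2 * inner ℝ x e := by
      rw [norm_sub_sq_real, hx, he]; ring
    have h4 : ‖x - e‖ ^ 2 < r ^ 2 := by nlinarith
    exact lt_of_pow_lt_pow_left₀ 2 hr.le h4
  have hnear : ∀ x : EE 3, ‖x‖ = 1 → 1 - δ ≤ (inner ℝ x e) ^ 2 → f x < m := by
    intro x hx h1
    rcases le_total 0 (inner ℝ x e) with h0 | h0
    · exact hposcase x hx h0 h1
    · rw [← heven x]
      apply hposcase (-x) (by rw [norm_neg, hx])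
      · rw [inner_neg_left]; linarith
      · rw [inner_neg_left, neg_sq]; exact h1
  have hx1lt : (inner ℝ x1 e) ^ 2 < 1 - δ := by
    by_contra hcon
    have := hnear x1 hx1 (not_lt.mp hcon)
    linarith
  refine ⟨δ, hδ, fun L hL => ?_⟩
  set C : Set (EE 3) := {x | ‖x‖ = 1 ∧ (inner ℝ x e) ^ 2 ≤ 1 - δ} with hC
  have hCcomp : IsCompact C := by
    apply (isCompact_sphere (0 : EE 3) 1).of_isClosed_subset
    · have hci : Continuous (fun x : EE 3 => (inner ℝ x e : ℝ) ^ 2) :=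
        ((continuous_id.inner continuous_const).pow 2)
      have hcn : Continuous (fun x : EE 3 => ‖x‖) := continuous_norm
      exact (isClosed_eq hcn continuous_const).inter (isClosed_le hci continuous_const)
    · intro x hx
      rw [mem_sphere_zero_iff_norm]
      exact hx.1
  have hwc : ContinuousOn (wfun L e) C := by
    intro x hx
    apply ContinuousAt.continuousWithinAt
    have hpos : 0 < ‖x‖ ^ 2 - (inner ℝ x e) ^ 2 := by
      have h1 := hx.1; have h2 := hx.2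
      rw [h1]; linarith
    unfold wfun
    have hin : ContinuousAt (fun y : EE 3 => (inner ℝ y e : ℝ)) x :=
      (continuous_id.inner continuous_const).continuousAt
    have hden : ContinuousAt (fun y : EE 3 => Real.sqrt (‖y‖ ^ 2 - (inner ℝ y e) ^ 2)) x :=
      ((continuous_norm.pow 2).continuousAt.sub (hin.pow 2)).sqrt
    exact (Real.continuous_exp.continuousAt.comp
      (continuousAt_const.mul (hin.div hden (Real.sqrt_ne_zero'.mpr hpos))))
  obtain ⟨W, hW⟩ := hCcomp.exists_bound_of_continuousOn hwc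
  have hx1C : x1 ∈ C := ⟨hx1, hx1lt.le⟩
  have hwpos : ∀ x : EE 3, 0 < wfun L e x := fun x => by unfold wfun; exact Real.exp_pos _
  have hWpos : 0 < W := by
    have h1 := hW x1 hx1C
    rw [Real.norm_of_nonneg (hwpos x1).le] at h1
    linarith [hwpos x1]
  set ε : ℝ := (f x1 - m) / (2 * W) with hε
  have hεpos : 0 < ε := by
    rw [hε]; apply div_pos (by linarith) (by linarith)
  have hfC : ContinuousOn f C := hf.mono (fun x hx => hne x hx.1)
  obtain ⟨x, hxC, hxmax⟩ := hCcomp.exists_isMaxOn ⟨x1, hx1C⟩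
    (hfC.add (continuousOn_const.mul hwc) : ContinuousOn (fun y => f y + ε * wfun L e y) C)
  have hxmax' : ∀ y ∈ C, f y + ε * wfun L e y ≤ f x + ε * wfun L e x := fun y hy => hxmax hy
  have hstrict : (inner ℝ x e) ^ 2 < 1 - δ := by
    rcases hxC.2.lt_or_eq with h | h
    · exact h
    · exfalso
      have h1 := hnear x hxC.1 h.ge
      have h2 := hW x hxC
      rw [Real.norm_of_nonneg (hwpos x).le] at h2
      have h3 := hxmax' x1 hx1C
      have h4 : ε * wfun L e x ≤ ε * W := mul_le_mul_of_nonneg_left h2 hεpos.le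
      have h5 : ε * W = (f x1 - m) / 2 := by
        rw [hε]; field_simp
      have h6 : 0 < ε * wfun L e x1 := mul_pos hεpos (hwpos x1)
      linarith
  refine ⟨ε, hεpos, x, hxC.1, hxC.2, ?_⟩
  have hx0 : x ≠ 0 := hne x hxC.1
  have hev1 : ∀ᶠ y in nhds x, y ≠ 0 := isOpen_compl_singleton.mem_nhds hx0
  have hcont : ContinuousAt (fun y : EE 3 => (inner ℝ (‖y‖⁻¹ • y) e) ^ 2) x := by
    have h1 : ContinuousAt (fun y : EE 3 => ‖y‖⁻¹ • y) x :=
      (continuous_norm.continuousAt.inv₀ (norm_ne_zero_iff.mpr hx0)).smul continuousAt_id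
    exact (h1.inner continuousAt_const).pow 2
  have hev2 : ∀ᶠ y in nhds x, (inner ℝ (‖y‖⁻¹ • y) e) ^ 2 < 1 - δ := by
    have h1 : (inner ℝ (‖x‖⁻¹ • x) e) ^ 2 < 1 - δ := by
      rw [hxC.1]
      simpa using hstrict
    have h2 : ∀ᶠ t in nhds ((inner ℝ (‖x‖⁻¹ • x) e) ^ 2 : ℝ), t < 1 - δ := gt_mem_nhds h1
    have h3 : Filter.Tendsto (fun y : EE 3 => (inner ℝ (‖y‖⁻¹ • y) e : ℝ) ^ 2) (nhds x)
        (nhds ((inner ℝ (‖x‖⁻¹ • x) e) ^ 2)) := hcont
    exact h3.eventually h2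
  filter_upwards [hev1, hev2] with y hy0 hy
  have hny : 0 < ‖y‖⁻¹ := inv_pos.mpr (norm_pos_iff.mpr hy0)
  have hmem : ‖y‖⁻¹ • y ∈ C := by
    refine ⟨?_, hy.le⟩
    rw [norm_smul, Real.norm_of_nonneg hny.le]
    exact inv_mul_cancel₀ (norm_ne_zero_iff.mpr hy0)
  have hfin := hxmax' _ hmem
  rw [hhom _ hny y, wfun_hom L e y _ hny] at hfin
  exact hfin

end WRatio
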