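import Pool.Agent.Helper729.WR.Defs



namespace WRatio



theorem notpar_b (x b : EE 3) (hx : ‖x‖ = 1) (hb : ‖b‖ = 1) (hbx : inner ℝ b x = 0) (t : ℝ) :
    b ≠ t • x := by
  intro h
  have h1 : (inner ℝ b x : ℝ) = t := by
    rw [h, real_inner_smul_left, real_inner_self_eq_norm_sq, hx]
    ring
  have h2 : t = 0 := by rw [← h1]; exact hbx
  rw [h, h2, zero_smul, norm_zero] at hb
  exact zero_ne_one hb

end WRatio
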