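import Pool.Agent.Helper729.WR.Defs



namespace WRatio



theorem notpar_e (x e : EE 3) (hx : ‖x‖ = 1) (he : ‖e‖ = 1) (hxe : (inner ℝ x e) ^ 2 < 1) (t : ℝ) :
    e ≠ t • x := by
  intro h
  have h1 : inner ℝ x e = t := by
    rw [h, inner_smul_right, real_inner_self_eq_norm_sq, hx]
    ring
  have h2 : |t| = 1 := by
    have h3 : ‖t • x‖ = 1 := by rw [← h]; exact he
    rw [norm_smul, hx, mul_one, Real.norm_eq_abs] at h3
    exact h3
  have h4 : t ^ 2 = 1 := by
    rw [← sq_abs, h2]; norm_num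
  rw [h1, h4] at hxe
  exact lt_irrefl _ hxe

end WRatio
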