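import Pool.Agent.Helper729.WR.Defs
import Pool.Agent.Helper729.WR.P_notpar_e
import Pool.Agent.Helper729.WR.P_notpar_b



namespace WRatio



theorem fderiv_apply_cont {E F : Type*} [NormedAddCommGroup E] [NormedSpace ℝ E]
    [NormedAddCommGroup F] [NormedSpace ℝ F] (B : E → F) (s : Set E) (hs : IsOpen s)
    (hB : ContDiffOn ℝ 1 B s) (e : E) : ContinuousOn (fun x => fderiv ℝ B x e) s :=
  (hB.continuousOn_fderiv_of_isOpen hs le_rfl).clm_apply continuousOn_const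

theorem bound (B : EE 3 → (EE 3 →L[ℝ] EE 3 →L[ℝ] ℝ)) (hB : ContDiffOn ℝ 1 B {0}ᶜ)
    (hpos : ∀ x, x ≠ 0 → ∀ v, (∀ t : ℝ, v ≠ t • x) → 0 < B x v v) (e : EE 3) (he : ‖e‖ = 1)
    (δ : ℝ) (hδ : 0 < δ) :
    ∃ M : ℝ, ∀ x b : EE 3, ‖x‖ = 1 → (inner ℝ x e) ^ 2 ≤ 1 - δ → ‖b‖ = 1 → inner ℝ b x = 0 →
      inner ℝ b e = 0 →
      |fderiv ℝ B x e b b / B x b b| + |fderiv ℝ B x e e e / B x e e|
        + (B x e e / B x b b) / (1 - (inner ℝ x e) ^ 2) ≤ M := by
  let K : Set (EE 3 × EE 3) := {p | ‖p.1‖ = 1 ∧ (inner ℝ p.1 e) ^ 2 ≤ 1 - δ ∧ ‖p.2‖ = 1 ∧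
    inner ℝ p.2 p.1 = 0 ∧ inner ℝ p.2 e = 0}
  have hKc : IsClosed K := by
    have h1 : IsClosed {p : EE 3 × EE 3 | ‖p.1‖ = 1} :=
      isClosed_eq (continuous_fst.norm) continuous_const
    have h2 : IsClosed {p : EE 3 × EE 3 | (inner ℝ p.1 e) ^ 2 ≤ 1 - δ} :=
      isClosed_le ((continuous_fst.inner continuous_const).pow 2) continuous_const
    have h3 : IsClosed {p : EE 3 × EE 3 | ‖p.2‖ = 1} :=
      isClosed_eq (continuous_snd.norm) continuous_const
    have h4 : IsClosed {p : EE 3 × EE 3 | inner ℝ p.2 p.1 = 0} :=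
      isClosed_eq (continuous_snd.inner continuous_fst) continuous_const
    have h5 : IsClosed {p : EE 3 × EE 3 | inner ℝ p.2 e = 0} :=
      isClosed_eq (continuous_snd.inner continuous_const) continuous_const
    exact h1.inter (h2.inter (h3.inter (h4.inter h5)))
  have hKb : Bornology.IsBounded K := by
    refine Bornology.IsBounded.subset (Metric.isBounded_closedBall (x := (0 : EE 3 × EE 3)) (r := 1))
      ?_
    intro p hp
    rw [mem_closedBall_zero_iff]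
    exact max_le hp.1.le hp.2.2.1.le
  have hK : IsCompact K := Metric.isCompact_of_isClosed_isBounded hKc hKb
  have hne : ∀ p ∈ K, p.1 ∈ ({0}ᶜ : Set (EE 3)) := by
    intro p hp h0
    have h1 : p.1 = 0 := h0
    have h2 := hp.1
    rw [h1, norm_zero] at h2
    exact zero_ne_one h2
  have hBc : ContinuousOn (fun p : EE 3 × EE 3 => B p.1) K :=
    hB.continuousOn.comp continuousOn_fst hne
  have hDc : ContinuousOn (fun p : EE 3 × EE 3 => fderiv ℝ B p.1 e) K :=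
    (fderiv_apply_cont B {0}ᶜ isOpen_compl_singleton hB e).comp continuousOn_fst hne
  have c1 : ContinuousOn (fun p : EE 3 × EE 3 => fderiv ℝ B p.1 e p.2 p.2) K :=
    (hDc.clm_apply continuousOn_snd).clm_apply continuousOn_snd
  have c2 : ContinuousOn (fun p : EE 3 × EE 3 => fderiv ℝ B p.1 e e e) K :=
    (hDc.clm_apply continuousOn_const).clm_apply continuousOn_const
  have c3 : ContinuousOn (fun p : EE 3 × EE 3 => B p.1 p.2 p.2) K :=
    (hBc.clm_apply continuousOn_snd).clm_apply continuousOn_snd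
  have c4 : ContinuousOn (fun p : EE 3 × EE 3 => B p.1 e e) K :=
    (hBc.clm_apply continuousOn_const).clm_apply continuousOn_const
  have c5 : ContinuousOn (fun p : EE 3 × EE 3 => 1 - (inner ℝ p.1 e) ^ 2) K :=
    (continuous_const.sub ((continuous_fst.inner continuous_const).pow 2)).continuousOn
  have n3 : ∀ p ∈ K, B p.1 p.2 p.2 ≠ 0 := fun p hp =>
    (hpos p.1 (hne p hp) p.2 (notpar_b p.1 p.2 hp.1 hp.2.2.1 hp.2.2.2.1)).ne'
  have n4 : ∀ p ∈ K, B p.1 e e ≠ 0 := fun p hp =>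
    (hpos p.1 (hne p hp) e (notpar_e p.1 e hp.1 he (by linarith [hp.2.1]))).ne'
  have n5 : ∀ p ∈ K, 1 - (inner ℝ p.1 e) ^ 2 ≠ 0 := fun p hp => by
    have := hp.2.1
    intro h
    linarith
  have hF : ContinuousOn (fun p : EE 3 × EE 3 =>
      |fderiv ℝ B p.1 e p.2 p.2 / B p.1 p.2 p.2| + |fderiv ℝ B p.1 e e e / B p.1 e e|
        + (B p.1 e e / B p.1 p.2 p.2) / (1 - (inner ℝ p.1 e) ^ 2)) K :=
    ((c1.div c3 n3).abs.add (c2.div c4 n4).abs).add ((c4.div c3 n3).div c5 n5)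
  obtain ⟨M, hM⟩ := hK.exists_bound_of_continuousOn hF
  refine ⟨M, fun x b hx hxe hb hbx hbe => ?_⟩
  exact (le_abs_self _).trans (hM (x, b) ⟨hx, hxe, hb, hbx, hbe⟩)

end WRatio
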