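import Pool.Agent.Helper729.WR.Defs



namespace WRatio



theorem det3_sq (u v w : EE 3) (hu : ‖u‖ = 1) (hv : ‖v‖ = 1) (hw : ‖w‖ = 1)
    (huv : inner ℝ u v = 0) (huw : inner ℝ u w = 0) (hvw : inner ℝ v w = 0) :
    (det3 v w u) ^ 2 = 1 := by
  have nn : ∀ a : EE 3, ‖a‖ = 1 → a 0 ^ 2 + a 1 ^ 2 + a 2 ^ 2 = 1 := by
    intro a ha
    have h := EuclideanSpace.real_norm_sq_eq a
    rw [ha, Fin.sum_univ_three] at h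
    linarith
  have ii : ∀ a b : EE 3, inner ℝ a b = (0 : ℝ) → a 0 * b 0 + a 1 * b 1 + a 2 * b 2 = 0 := by
    intro a b h
    simp only [PiLp.inner_apply, Fin.sum_univ_three, RCLike.inner_apply, conj_trivial] at h
    linarith
  have key : (det3 v w u) ^ 2 =
      (u 0 ^ 2 + u 1 ^ 2 + u 2 ^ 2) * (v 0 ^ 2 + v 1 ^ 2 + v 2 ^ 2) *
        (w 0 ^ 2 + w 1 ^ 2 + w 2 ^ 2) +
      2 * (u 0 * v 0 + u 1 * v 1 + u 2 * v 2) * (v 0 * w 0 + v 1 * w 1 + v 2 * w 2) *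
        (u 0 * w 0 + u 1 * w 1 + u 2 * w 2) -
      (u 0 ^ 2 + u 1 ^ 2 + u 2 ^ 2) * (v 0 * w 0 + v 1 * w 1 + v 2 * w 2) ^ 2 -
      (v 0 ^ 2 + v 1 ^ 2 + v 2 ^ 2) * (u 0 * w 0 + u 1 * w 1 + u 2 * w 2) ^ 2 -
      (w 0 ^ 2 + w 1 ^ 2 + w 2 ^ 2) * (u 0 * v 0 + u 1 * v 1 + u 2 * v 2) ^ 2 := by
    unfold det3
    ring
  rw [key, nn u hu, nn v hv, nn w hw, ii u v huv, ii u w huw, ii v w hvw]
  ring

end WRatio
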