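import Pool.Agent.Helper729.WR.Defs



namespace WRatio



theorem minor_alg (a b c d e f x0 x1 x2 v0 v1 v2 w0 w1 w2 : ℝ)
    (E0 : a * x0 + b * x1 + c * x2 = 0) (E1 : b * x0 + d * x1 + e * x2 = 0)
    (E2 : c * x0 + e * x1 + f * x2 = 0) :
    ((a * v0 * v0 + d * v1 * v1 + f * v2 * v2 + 2 * b * v0 * v1 + 2 * c * v0 * v2 + 2 * e * v1 * v2) *
      (a * w0 * w0 + d * w1 * w1 + f * w2 * w2 + 2 * b * w0 * w1 + 2 * c * w0 * w2 + 2 * e * w1 * w2) -
      (a * v0 * w0 + b * (v0 * w1 + v1 * w0) + c * (v0 * w2 + v2 * w0) + d * v1 * w1 +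
        e * (v1 * w2 + v2 * w1) + f * v2 * w2) ^ 2) * (x0 ^ 2 + x1 ^ 2 + x2 ^ 2) =
      (a * d - b ^ 2 + a * f - c ^ 2 + d * f - e ^ 2) *
        (v0 * (w1 * x2 - w2 * x1) - v1 * (w0 * x2 - w2 * x0) + v2 * (w0 * x1 - w1 * x0)) ^ 2 := by
  -- cofactors
  obtain ⟨C00, h00⟩ : ∃ C, C = d * f - e * e := ⟨_, rfl⟩
  obtain ⟨C01, h01⟩ : ∃ C, C = e * c - b * f := ⟨_, rfl⟩
  obtain ⟨C02, h02⟩ : ∃ C, C = b * e - d * c := ⟨_, rfl⟩
  obtain ⟨C11, h11⟩ : ∃ C, C = a * f - c * c := ⟨_, rfl⟩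
  obtain ⟨C12, h12⟩ : ∃ C, C = b * c - a * e := ⟨_, rfl⟩
  obtain ⟨C22, h22⟩ : ∃ C, C = a * d - b * b := ⟨_, rfl⟩
  -- relations (C_i × x)_m = 0
  have P00 : C01 * x2 - C02 * x1 = 0 := by
    rw [h01, h02]; linear_combination c * E1 - b * E2
  have P01 : C02 * x0 - C00 * x2 = 0 := by
    rw [h02, h00]; linear_combination e * E1 - d * E2
  have P02 : C00 * x1 - C01 * x0 = 0 := by
    rw [h00, h01]; linear_combination f * E1 - e * E2
  have P10 : C11 * x2 - C12 * x1 = 0 := by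
    rw [h11, h12]; linear_combination a * E2 - c * E0
  have P11 : C12 * x0 - C01 * x2 = 0 := by
    rw [h12, h01]; linear_combination b * E2 - e * E0
  have P12 : C01 * x1 - C11 * x0 = 0 := by
    rw [h01, h11]; linear_combination c * E2 - f * E0
  have P20 : C12 * x2 - C22 * x1 = 0 := by
    rw [h12, h22]; linear_combination b * E0 - a * E1
  have P21 : C22 * x0 - C02 * x2 = 0 := by
    rw [h22, h02]; linear_combination d * E0 - b * E1
  have P22 : C02 * x1 - C12 * x0 = 0 := by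
    rw [h02, h12]; linear_combination e * E0 - c * E1
  have k00 : C00 * (x0 ^ 2 + x1 ^ 2 + x2 ^ 2) = (C00 + C11 + C22) * (x0 * x0) := by
    linear_combination x1 * P02 - x2 * P01 + x0 * (P12 - P21)
  have k01 : C01 * (x0 ^ 2 + x1 ^ 2 + x2 ^ 2) = (C00 + C11 + C22) * (x0 * x1) := by
    linear_combination x2 * P00 - x0 * P02 + x1 * (P12 - P21)
  have k02 : C02 * (x0 ^ 2 + x1 ^ 2 + x2 ^ 2) = (C00 + C11 + C22) * (x0 * x2) := by
    linear_combination x0 * P01 - x1 * P00 + x2 * (P12 - P21)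
  have k11 : C11 * (x0 ^ 2 + x1 ^ 2 + x2 ^ 2) = (C00 + C11 + C22) * (x1 * x1) := by
    linear_combination x2 * P10 - x0 * P12 + x1 * (-P02 + P20)
  have k12 : C12 * (x0 ^ 2 + x1 ^ 2 + x2 ^ 2) = (C00 + C11 + C22) * (x1 * x2) := by
    linear_combination x0 * P11 - x1 * P10 + x2 * (-P02 + P20)
  have k22 : C22 * (x0 ^ 2 + x1 ^ 2 + x2 ^ 2) = (C00 + C11 + C22) * (x2 * x2) := by
    linear_combination x0 * P21 - x1 * P20 + x2 * (P01 - P10)
  have e1 : (a * v0 * v0 + d * v1 * v1 + f * v2 * v2 + 2 * b * v0 * v1 + 2 * c * v0 * v2 + 2 * e * v1 * v2) *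
      (a * w0 * w0 + d * w1 * w1 + f * w2 * w2 + 2 * b * w0 * w1 + 2 * c * w0 * w2 + 2 * e * w1 * w2) -
      (a * v0 * w0 + b * (v0 * w1 + v1 * w0) + c * (v0 * w2 + v2 * w0) + d * v1 * w1 +
        e * (v1 * w2 + v2 * w1) + f * v2 * w2) ^ 2 =
      C00 * (v1 * w2 - v2 * w1) ^ 2 + C11 * (v2 * w0 - v0 * w2) ^ 2 + C22 * (v0 * w1 - v1 * w0) ^ 2 +
      2 * C01 * (v1 * w2 - v2 * w1) * (v2 * w0 - v0 * w2) +
      2 * C02 * (v1 * w2 - v2 * w1) * (v0 * w1 - v1 * w0) +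
      2 * C12 * (v2 * w0 - v0 * w2) * (v0 * w1 - v1 * w0) := by
    rw [h00, h01, h02, h11, h12, h22]
    ring
  have e2' : a * d - b ^ 2 + a * f - c ^ 2 + d * f - e ^ 2 = C00 + C11 + C22 := by
    rw [h00, h11, h22]
    ring
  rw [e1, e2']
  linear_combination (v1 * w2 - v2 * w1) ^ 2 * k00 + (v2 * w0 - v0 * w2) ^ 2 * k11 +
    (v0 * w1 - v1 * w0) ^ 2 * k22 + 2 * (v1 * w2 - v2 * w1) * (v2 * w0 - v0 * w2) * k01 +
    2 * (v1 * w2 - v2 * w1) * (v0 * w1 - v1 * w0) * k02 +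
    2 * (v2 * w0 - v0 * w2) * (v0 * w1 - v1 * w0) * k12

theorem minor_eq (A : EE 3 →L[ℝ] EE 3 →L[ℝ] ℝ) (hs : ∀ v w, A v w = A w v) (x : EE 3)
    (hx : ∀ v, A x v = 0) (v w : EE 3) :
    (A v v * A w w - (A v w) ^ 2) * ‖x‖ ^ 2 = e2 A * (det3 v w x) ^ 2 := by
  have hv : ∀ v : EE 3, v = v 0 • EuclideanSpace.single (0 : Fin 3) (1 : ℝ) +
      v 1 • EuclideanSpace.single (1 : Fin 3) (1 : ℝ) +
      v 2 • EuclideanSpace.single (2 : Fin 3) (1 : ℝ) := by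
    intro v
    ext i
    fin_cases i <;> simp
  have s10 := hs (EuclideanSpace.single (1 : Fin 3) (1 : ℝ)) (EuclideanSpace.single (0 : Fin 3) (1 : ℝ))
  have s20 := hs (EuclideanSpace.single (2 : Fin 3) (1 : ℝ)) (EuclideanSpace.single (0 : Fin 3) (1 : ℝ))
  have s21 := hs (EuclideanSpace.single (2 : Fin 3) (1 : ℝ)) (EuclideanSpace.single (1 : Fin 3) (1 : ℝ))
  have x0 := hx (EuclideanSpace.single (0 : Fin 3) (1 : ℝ))
  have x1 := hx (EuclideanSpace.single (1 : Fin 3) (1 : ℝ))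
  have x2 := hx (EuclideanSpace.single (2 : Fin 3) (1 : ℝ))
  rw [hv x] at x0 x1 x2
  have hA : ∀ v w : EE 3, A v w = v 0 * w 0 * A (EuclideanSpace.single (0 : Fin 3) (1 : ℝ)) (EuclideanSpace.single (0 : Fin 3) (1 : ℝ))
      + v 0 * w 1 * A (EuclideanSpace.single (0 : Fin 3) (1 : ℝ)) (EuclideanSpace.single (1 : Fin 3) (1 : ℝ))
      + v 0 * w 2 * A (EuclideanSpace.single (0 : Fin 3) (1 : ℝ)) (EuclideanSpace.single (2 : Fin 3) (1 : ℝ))
      + v 1 * w 0 * A (EuclideanSpace.single (1 : Fin 3) (1 : ℝ)) (EuclideanSpace.single (0 : Fin 3) (1 : ℝ))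
      + v 1 * w 1 * A (EuclideanSpace.single (1 : Fin 3) (1 : ℝ)) (EuclideanSpace.single (1 : Fin 3) (1 : ℝ))
      + v 1 * w 2 * A (EuclideanSpace.single (1 : Fin 3) (1 : ℝ)) (EuclideanSpace.single (2 : Fin 3) (1 : ℝ))
      + v 2 * w 0 * A (EuclideanSpace.single (2 : Fin 3) (1 : ℝ)) (EuclideanSpace.single (0 : Fin 3) (1 : ℝ))
      + v 2 * w 1 * A (EuclideanSpace.single (2 : Fin 3) (1 : ℝ)) (EuclideanSpace.single (1 : Fin 3) (1 : ℝ))
      + v 2 * w 2 * A (EuclideanSpace.single (2 : Fin 3) (1 : ℝ)) (EuclideanSpace.single (2 : Fin 3) (1 : ℝ)) := by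
    intro v w
    conv_lhs => rw [hv v, hv w]
    simp only [map_add, map_smul, ContinuousLinearMap.add_apply, ContinuousLinearMap.smul_apply,
      smul_eq_mul]
    ring
  simp only [map_add, map_smul, ContinuousLinearMap.add_apply, ContinuousLinearMap.smul_apply,
      smul_eq_mul] at x0 x1 x2
  have hn : ‖x‖ ^ 2 = (x 0) ^ 2 + (x 1) ^ 2 + (x 2) ^ 2 := by
    rw [EuclideanSpace.norm_sq_eq, Fin.sum_univ_three]
    simp only [Real.norm_eq_abs, sq_abs]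
  rw [hn, hA v v, hA w w, hA v w]
  unfold e2 det3
  rw [s10, s20, s21]
  rw [s10] at x0
  rw [s20] at x0
  rw [s21] at x1
  generalize A (EuclideanSpace.single (0 : Fin 3) (1 : ℝ)) (EuclideanSpace.single (0 : Fin 3) (1 : ℝ)) = a at *
  generalize A (EuclideanSpace.single (0 : Fin 3) (1 : ℝ)) (EuclideanSpace.single (1 : Fin 3) (1 : ℝ)) = b at *
  generalize A (EuclideanSpace.single (0 : Fin 3) (1 : ℝ)) (EuclideanSpace.single (2 : Fin 3) (1 : ℝ)) = c at *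
  generalize A (EuclideanSpace.single (1 : Fin 3) (1 : ℝ)) (EuclideanSpace.single (1 : Fin 3) (1 : ℝ)) = d at *
  generalize A (EuclideanSpace.single (1 : Fin 3) (1 : ℝ)) (EuclideanSpace.single (2 : Fin 3) (1 : ℝ)) = e at *
  generalize A (EuclideanSpace.single (2 : Fin 3) (1 : ℝ)) (EuclideanSpace.single (2 : Fin 3) (1 : ℝ)) = f at *
  have key := minor_alg a b c d e f (x 0) (x 1) (x 2) (v 0) (v 1) (v 2) (w 0) (w 1) (w 2)
    (by linear_combination x0) (by linear_combination x1) (by linear_combination x2)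
  linear_combination key

end WRatio
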