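import Pool.Agent.Helper729.WR.Defs
import Pool.Agent.Helper729.WR.P_minor_eq
import Pool.Agent.Helper729.WR.P_det3_sq



namespace WRatio



theorem det_basis (A : EE 3 →L[ℝ] EE 3 →L[ℝ] ℝ) (hs : ∀ v w, A v w = A w v) (u : EE 3)
    (hu : ‖u‖ = 1) (hx : ∀ v, A u v = 0) :
    Matrix.det (Matrix.of fun i j =>
      A ((stdOrthonormalBasis ℝ (ℝ ∙ u)ᗮ i : (ℝ ∙ u)ᗮ) : EE 3)
        ((stdOrthonormalBasis ℝ (ℝ ∙ u)ᗮ j : (ℝ ∙ u)ᗮ) : EE 3)) = e2 A := by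
  have hu0 : u ≠ 0 := by
    intro h
    rw [h, norm_zero] at hu
    exact zero_ne_one hu
  have : Fact (Module.finrank ℝ (EE 3) = 2 + 1) := ⟨by simp⟩
  have hf : Module.finrank ℝ ((ℝ ∙ u)ᗮ : Submodule ℝ (EE 3)) = 2 :=
    Submodule.finrank_orthogonal_span_singleton (n := 2) hu0
  set b := stdOrthonormalBasis ℝ ((ℝ ∙ u)ᗮ : Submodule ℝ (EE 3)) with hb
  clear_value b
  clear hb
  generalize Module.finrank ℝ ((ℝ ∙ u)ᗮ : Submodule ℝ (EE 3)) = k at hf b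
  subst hf
  rw [Matrix.det_fin_two]
  simp only [Matrix.of_apply]
  have hb1 : ‖((b 0 : (ℝ ∙ u)ᗮ) : EE 3)‖ = 1 := b.orthonormal.1 0
  have hb2 : ‖((b 1 : (ℝ ∙ u)ᗮ) : EE 3)‖ = 1 := b.orthonormal.1 1
  have hb12 : inner ℝ ((b 0 : (ℝ ∙ u)ᗮ) : EE 3) ((b 1 : (ℝ ∙ u)ᗮ) : EE 3) = 0 := by
    have h := b.orthonormal.2 (show (0 : Fin 2) ≠ 1 by decide)
    exact h
  have hu1 : inner ℝ u ((b 0 : (ℝ ∙ u)ᗮ) : EE 3) = 0 :=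
    Submodule.mem_orthogonal_singleton_iff_inner_right.1 (b 0).2
  have hu2 : inner ℝ u ((b 1 : (ℝ ∙ u)ᗮ) : EE 3) = 0 :=
    Submodule.mem_orthogonal_singleton_iff_inner_right.1 (b 1).2
  have hd := det3_sq u _ _ hu hb1 hb2 hu1 hu2 hb12
  have hm := minor_eq A hs u hx ((b 0 : (ℝ ∙ u)ᗮ) : EE 3) ((b 1 : (ℝ ∙ u)ᗮ) : EE 3)
  rw [hd, hu] at hm
  rw [hs ((b 1 : (ℝ ∙ u)ᗮ) : EE 3) ((b 0 : (ℝ ∙ u)ᗮ) : EE 3)]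
  nlinarith [hm]

end WRatio
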