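import Pool.Agent.Helper729.WR.Defs
import Pool.Agent.Helper729.WR.P_minor_eq



namespace WRatio



theorem e2p_inner3 (v w : EE 3) : inner ℝ v w = v 0 * w 0 + v 1 * w 1 + v 2 * w 2 := by
  simp [PiLp.inner_apply, Fin.sum_univ_three]
  ring

theorem e2p_norm3 (v : EE 3) : ‖v‖ ^ 2 = v 0 ^ 2 + v 1 ^ 2 + v 2 ^ 2 := by
  rw [← real_inner_self_eq_norm_sq, e2p_inner3]; ring

theorem e2p_key (A : EE 3 →L[ℝ] EE 3 →L[ℝ] ℝ) (hs : ∀ v w, A v w = A w v) (x : EE 3) (hx0 : x ≠ 0)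
    (hx : ∀ v, A x v = 0) (hpos : ∀ v, v ≠ 0 → inner ℝ v x = 0 → 0 < A v v) (v : EE 3)
    (hv : v ≠ 0) (hvx : inner ℝ v x = 0) : 0 < e2 A := by
  obtain ⟨w, hw0, hw1, hw2⟩ : ∃ w : EE 3, w 0 = x 1 * v 2 - x 2 * v 1 ∧
      w 1 = x 2 * v 0 - x 0 * v 2 ∧ w 2 = x 0 * v 1 - x 1 * v 0 :=
    ⟨!₂[x 1 * v 2 - x 2 * v 1, x 2 * v 0 - x 0 * v 2, x 0 * v 1 - x 1 * v 0], by simp, by simp,
      by simp⟩
  have hwx : inner ℝ w x = 0 := by
    rw [e2p_inner3, hw0, hw1, hw2]; ring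
  have hwv : inner ℝ w v = 0 := by
    rw [e2p_inner3, hw0, hw1, hw2]; ring
  have hvx' : v 0 * x 0 + v 1 * x 1 + v 2 * x 2 = 0 := by rw [← e2p_inner3]; exact hvx
  have hdet : det3 v w x = ‖x‖ ^ 2 * ‖v‖ ^ 2 := by
    have h : det3 v w x = ‖x‖ ^ 2 * ‖v‖ ^ 2 - (v 0 * x 0 + v 1 * x 1 + v 2 * x 2) ^ 2 := by
      rw [det3, e2p_norm3, e2p_norm3, hw0, hw1, hw2]; ring
    rw [h, hvx']; ring
  have hxn : 0 < ‖x‖ ^ 2 := by positivity
  have hvn : 0 < ‖v‖ ^ 2 := by positivity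
  have hdpos : 0 < det3 v w x := by rw [hdet]; positivity
  have hw : w ≠ 0 := by
    rintro rfl
    simp [det3] at hdpos
  have hAv := hpos v hv hvx
  have hu0 : w - (A v w / A v v) • v ≠ 0 := by
    intro hu
    have h1 : w = (A v w / A v v) • v := sub_eq_zero.mp hu
    have h2 : (A v w / A v v) * ‖v‖ ^ 2 = 0 := by
      rw [← real_inner_self_eq_norm_sq, ← real_inner_smul_left, ← h1]; exact hwv
    have h3 : A v w / A v v = 0 := by
      rcases mul_eq_zero.mp h2 with h | h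
      · exact h
      · exact absurd h hvn.ne'
    rw [h3, zero_smul] at h1
    exact hw h1
  have hux : inner ℝ (w - (A v w / A v v) • v) x = 0 := by
    rw [inner_sub_left, real_inner_smul_left, hwx, hvx]; ring
  have hAu := hpos _ hu0 hux
  have hexp : A (w - (A v w / A v v) • v) (w - (A v w / A v v) • v) * A v v =
      A v v * A w w - (A v w) ^ 2 := by
    simp only [map_sub, map_smul, ContinuousLinearMap.sub_apply, ContinuousLinearMap.smul_apply,
      smul_eq_mul]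
    rw [hs w v]
    field_simp
    ring
  have hmin : 0 < A v v * A w w - (A v w) ^ 2 := by
    rw [← hexp]; positivity
  have hm := minor_eq A hs x hx v w
  have h4 : 0 < e2 A * (det3 v w x) ^ 2 := by
    rw [← hm]; positivity
  exact (pos_iff_pos_of_mul_pos h4).mpr (by positivity)

theorem e2_pos (A : EE 3 →L[ℝ] EE 3 →L[ℝ] ℝ) (hs : ∀ v w, A v w = A w v) (x : EE 3) (hx0 : x ≠ 0)
    (hx : ∀ v, A x v = 0) (hpos : ∀ v, v ≠ 0 → inner ℝ v x = 0 → 0 < A v v) : 0 < e2 A := by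
  by_cases h : x 0 = 0 ∧ x 1 = 0
  · refine e2p_key A hs x hx0 hx hpos (EuclideanSpace.single 0 1) ?_ ?_
    · intro h2
      have := congrArg (fun v : EE 3 => v 0) h2
      simp at this
    · rw [e2p_inner3, h.1, h.2]
      simp
  · refine e2p_key A hs x hx0 hx hpos !₂[-x 1, x 0, 0] ?_ ?_
    · intro h2
      apply h
      have h3 := congrArg (fun v : EE 3 => v 0) h2
      have h4 := congrArg (fun v : EE 3 => v 1) h2
      simp at h3 h4
      exact ⟨h4, h3⟩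
    · rw [e2p_inner3]
      simp
      ring

end WRatio
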