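import Pool.Agent.Helper729.WR.Defs



namespace WRatio



theorem exists_b (x e : EE 3) : ∃ b : EE 3, ‖b‖ = 1 ∧ inner ℝ b x = 0 ∧ inner ℝ b e = 0 := by
  classical
  have hS : Module.finrank ℝ (Submodule.span ℝ ({x, e} : Set (EE 3))) ≤ 2 := by
    have h := finrank_span_finset_le_card (R := ℝ) ({x, e} : Finset (EE 3))
    have h2 : (({x, e} : Finset (EE 3)) : Set (EE 3)) = {x, e} := by simp
    rw [h2] at h
    exact h.trans Finset.card_le_two
  have h3 : Module.finrank ℝ (EE 3) = 3 := by simp [EE]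
  have hadd := (Submodule.span ℝ ({x, e} : Set (EE 3))).finrank_add_finrank_orthogonal
  have hpos : 0 < Module.finrank ℝ (Submodule.span ℝ ({x, e} : Set (EE 3)))ᗮ := by omega
  obtain ⟨⟨v, hv⟩, hv0⟩ := Module.finrank_pos_iff_exists_ne_zero.mp hpos
  have hv0' : v ≠ 0 := fun h => hv0 (by simpa using h)
  have hx : inner ℝ x v = 0 := (Submodule.mem_orthogonal _ _).mp hv x (Submodule.subset_span (by simp))
  have he : inner ℝ e v = 0 := (Submodule.mem_orthogonal _ _).mp hv e (Submodule.subset_span (by simp))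
  refine ⟨‖v‖⁻¹ • v, ?_, ?_, ?_⟩
  · rw [norm_smul, norm_inv, norm_norm, inv_mul_cancel₀ (norm_ne_zero_iff.mpr hv0')]
  · rw [real_inner_smul_left, real_inner_comm, hx, mul_zero]
  · rw [real_inner_smul_left, real_inner_comm, he, mul_zero]

end WRatio
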