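import Pool.Agent.Helper729.WR.Defs



namespace WRatio



theorem fderiv_euler (h : EE 3 → ℝ) (hh : ContDiffOn ℝ 3 h {0}ᶜ)
    (hhom : ∀ t : ℝ, 0 < t → ∀ x, h (t • x) = t * h x) (x : EE 3) (hx : x ≠ 0) :
    fderiv ℝ h x x = h x := by
  have hmem : ({0}ᶜ : Set (EE 3)) ∈ nhds x := isOpen_compl_singleton.mem_nhds (by simpa using hx)
  have hd : DifferentiableAt ℝ h x := (hh.contDiffAt hmem).differentiableAt (by norm_num)
  have hd1 : DifferentiableAt ℝ h ((1 : ℝ) • x) := by rw [one_smul]; exact hd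
  have hl : HasDerivAt (fun t : ℝ => t • x) x 1 := by
    have := (hasDerivAt_id (1 : ℝ)).smul_const x
    simpa using this
  have h1 : HasDerivAt (fun t : ℝ => h (t • x)) (fderiv ℝ h ((1 : ℝ) • x) x) 1 :=
    hd1.hasFDerivAt.comp_hasDerivAt 1 hl
  have h2 : HasDerivAt (fun t : ℝ => h (t • x)) (h x) 1 := by
    have h3 : HasDerivAt (fun t : ℝ => t * h x) (h x) 1 := by
      have := (hasDerivAt_id (1 : ℝ)).mul_const (h x)
      simpa using this
    refine h3.congr_of_eventuallyEq ?_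
    filter_upwards [lt_mem_nhds (show (0 : ℝ) < 1 by norm_num)] with t ht
    exact hhom t ht x
  have h4 := h1.unique h2
  rw [one_smul] at h4
  exact h4

end WRatio
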