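import Pool.Agent.Helper729.WR.Defs



namespace WRatio



theorem fderiv_hom (h : EE 3 → ℝ) (hhom : ∀ t : ℝ, 0 < t → ∀ x, h (t • x) = t * h x)
    (t : ℝ) (ht : 0 < t) (x : EE 3) : fderiv ℝ h (t • x) = fderiv ℝ h x := by
  have h1 : fderiv ℝ (fun y => h (t • y)) x = t • fderiv ℝ h (t • x) := fderiv_comp_smul t
  have h2 : (fun y => h (t • y)) = t • h := by
    funext y
    rw [hhom t ht y, Pi.smul_apply, smul_eq_mul]
  have h3 : fderiv ℝ (t • h) x = t • fderiv ℝ h x := by
    rw [fderiv_const_smul_field]; rfl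
  rw [h2, h3] at h1
  exact (smul_right_injective _ ht.ne' h1).symm

end WRatio
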