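import Pool.Agent.Helper729.WR.Defs



namespace WRatio



theorem final_ineq_h1 (Bee Beb Bbb fee feb fbb k i s L ε W : ℝ)
    (hBee : 0 < Bee) (hdet : 0 < Bee * Bbb - Beb ^ 2) (hkB : Bee * k = Beb)
    (h2 : fee + ε * (L ^ 2 * i ^ 2 * W) ≤ 0)
    (h4 : (fbb - 2 * k * feb + k ^ 2 * fee)
      + ε * ((L ^ 2 * k ^ 2 * i ^ 2 - L * s * i ^ 3) * W) ≤ 0) :
    Bee * fbb - 2 * Beb * feb + Bbb * fee ≤
      -(ε * W * (L ^ 2 * Bbb * i ^ 2 - Bee * L * s * i ^ 3)) := by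
  have hpos : 0 < Bbb - Bee * k ^ 2 := by
    have h5 : Bee * (Bbb - Bee * k ^ 2) = Bee * Bbb - Beb ^ 2 := by rw [← hkB]; ring
    have h6 : 0 < Bee * (Bbb - Bee * k ^ 2) := by rw [h5]; exact hdet
    exact (pos_iff_pos_of_mul_pos h6).mp hBee
  have h5 : (Bbb - Bee * k ^ 2) * (fee + ε * (L ^ 2 * i ^ 2 * W)) ≤ 0 :=
    mul_nonpos_of_nonneg_of_nonpos hpos.le h2
  have h6 : Bee * ((fbb - 2 * k * feb + k ^ 2 * fee) +
      ε * ((L ^ 2 * k ^ 2 * i ^ 2 - L * s * i ^ 3) * W)) ≤ 0 :=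
    mul_nonpos_of_nonneg_of_nonpos hBee.le h4
  have h7 : Bee * fbb - 2 * Beb * feb + Bbb * fee +
      ε * W * (L ^ 2 * Bbb * i ^ 2 - Bee * L * s * i ^ 3) =
      (Bbb - Bee * k ^ 2) * (fee + ε * (L ^ 2 * i ^ 2 * W)) +
      Bee * ((fbb - 2 * k * feb + k ^ 2 * fee) +
        ε * ((L ^ 2 * k ^ 2 * i ^ 2 - L * s * i ^ 3) * W)) := by
    rw [← hkB]; ring
  linarith only [h5, h6, h7]

theorem final_ineq_h2 (Bee Beb Bbb Dee Dbb pee pbb fee feb fbb u v : ℝ)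
    (huB : Bee * u = Dee) (hvB : Bbb * v = Dbb)
    (eq0 : Bee * pbb + Bbb * pee = 0)
    (eq1 : Dee * pbb + Bee * fbb + Dbb * pee + Bbb * fee - 2 * Beb * feb = 0) :
    Bee * fbb - 2 * Beb * feb + Bbb * fee = pee * (Bbb * (u - v)) := by
  have hDp : Dee * pbb = -(u * Bbb * pee) := by
    have h7 : Bee * pbb = -(Bbb * pee) := by linarith only [eq0]
    calc Dee * pbb = u * (Bee * pbb) := by rw [← huB]; ring
      _ = _ := by rw [h7]; ring
  have h7 : Dbb * pee = v * Bbb * pee := by rw [← hvB]; ring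
  have h8 : pee * (Bbb * (u - v)) = u * Bbb * pee - v * Bbb * pee := by ring
  rw [h8, ← h7]
  linarith only [hDp, eq1]

theorem final_ineq_h3 (Bee Bbb pee X u v q i s L ε W : ℝ)
    (hBbb : 0 < Bbb) (hL : 0 < L) (hε : 0 < ε) (hW : 0 < W) (hi0 : 0 < i)
    (hqB : Bbb * q = Bee) (hpee : pee = -(ε * (L * i * W)))
    (hX : X ≤ -(ε * W * (L ^ 2 * Bbb * i ^ 2 - Bee * L * s * i ^ 3)))
    (hX2 : X = pee * (Bbb * (u - v))) :
    L * i - (u - v) - q * s * i ^ 2 ≤ 0 := by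
  have hfin : (ε * W * L * i * Bbb) * (L * i - (u - v) - q * s * i ^ 2) ≤ 0 := by
    have h7 : (ε * W * L * i * Bbb) * (L * i - (u - v) - q * s * i ^ 2) =
        -(ε * (L * i * W)) * (Bbb * (u - v)) * (-1) * (-1) +
          ε * W * (L ^ 2 * Bbb * i ^ 2 - (Bbb * q) * L * s * i ^ 3) := by ring
    rw [h7, hqB, ← hpee]
    have h8 : pee * (Bbb * (u - v)) * (-1) * (-1) = X := by rw [hX2]; ring
    rw [h8]
    linarith only [hX]
  have hcoef : 0 < ε * W * L * i * Bbb := by positivity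
  by_contra hcon
  push Not at hcon
  have := mul_pos hcoef hcon
  linarith only [this, hfin]

theorem final_ineq_h4 (u v q i s L r : ℝ)
    (hr : 0 < r) (hr1 : r ≤ 1) (hrs : r ^ 2 + s ^ 2 = 1) (hri : r * i = 1)
    (hi0 : 0 < i) (hi1 : 1 ≤ i) (hq0 : 0 < q)
    (h8 : L * i - (u - v) - q * s * i ^ 2 ≤ 0) :
    L ≤ |v| + |u| + q * i ^ 2 := by
  have h9 : r * (L * i - (u - v) - q * s * i ^ 2) ≤ 0 :=
    mul_nonpos_of_nonneg_of_nonpos hr.le h8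
  have h10 : r * (L * i - (u - v) - q * s * i ^ 2) =
      L * (r * i) - r * (u - v) - q * s * (r * i) * i := by ring
  rw [h10, hri] at h9
  have h11 : r * (u - v) ≤ |u| + |v| := by
    calc r * (u - v) ≤ |r * (u - v)| := le_abs_self _
      _ = r * |u - v| := by rw [abs_mul, abs_of_pos hr]
      _ ≤ 1 * |u - v| := mul_le_mul_of_nonneg_right hr1 (abs_nonneg _)
      _ = |u - v| := one_mul _
      _ ≤ |u| + |v| := abs_sub _ _
  have hs1 : s ≤ 1 := by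
    by_contra hcon
    push Not at hcon
    have h12 : (1 : ℝ) * 1 < s * s := mul_lt_mul'' hcon hcon zero_le_one zero_le_one
    have h13 : 0 < r ^ 2 := by positivity
    have h14 : s ^ 2 = s * s := sq s
    rw [h14] at hrs
    linarith only [h12, h13, hrs]
  have h12 : q * s * 1 * i ≤ q * i ^ 2 := by
    have h13 : q * s * 1 * i ≤ q * 1 * 1 * i := by
      apply mul_le_mul_of_nonneg_right _ hi0.le
      apply mul_le_mul_of_nonneg_right _ zero_le_one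
      exact mul_le_mul_of_nonneg_left hs1 hq0.le
    have h14 : q * 1 * 1 * i * 1 ≤ q * 1 * 1 * i * i :=
      mul_le_mul_of_nonneg_left hi1 (by positivity)
    have h15 : q * 1 * 1 * i * i = q * i ^ 2 := by ring
    linarith only [h13, h14, h15]
  linarith only [h9, h11, h12]

/-- the pure algebra at the maximum point (all quantities are real numbers).
`Bee, Beb, Bbb` the coefficients, `Dee, Dbb` their derivatives, `pee = f_e, peb = f_b, pbb`,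
`fee, feb, fbb` the second derivatives of `f`, `r = rho`, `s = <x,e>`, `W` the barrier. -/
theorem final_ineq (Bee Beb Bbb Dee Deb Dbb pee peb pbb fee feb fbb r s L ε W : ℝ)
    (hBee : 0 < Bee) (hBbb : 0 < Bbb) (hdet : 0 < Bee * Bbb - Beb ^ 2)
    (hr : 0 < r) (hr1 : r ≤ 1) (hrs : r ^ 2 + s ^ 2 = 1) (hL : 0 < L) (hε : 0 < ε) (hW : 0 < W)
    (eq0 : Bee * pbb + Bbb * pee - 2 * Beb * peb = 0)
    (eq1 : Dee * pbb + Bee * fbb + Dbb * pee + Bbb * fee - 2 * Deb * peb - 2 * Beb * feb = 0)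
    (h1 : pee + ε * (L / r * W) = 0) (h2 : fee + ε * (L ^ 2 / r ^ 2 * W) ≤ 0)
    (h3 : peb = 0)
    (h4 : (fbb - 2 * (Beb / Bee) * feb + (Beb / Bee) ^ 2 * fee)
      + ε * ((L ^ 2 * (Beb / Bee) ^ 2 / r ^ 2 - L * s / r ^ 3) * W) ≤ 0) :
    L ≤ |Dbb / Bbb| + |Dee / Bee| + (Bee / Bbb) / r ^ 2 := by
  obtain ⟨i, hi⟩ : ∃ i : ℝ, i = r⁻¹ := ⟨_, rfl⟩
  have hi0 : 0 < i := by rw [hi]; exact inv_pos.mpr hr
  have hri : r * i = 1 := by rw [hi]; exact mul_inv_cancel₀ hr.ne'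
  have hi1 : 1 ≤ i := by rw [hi]; exact (one_le_inv₀ hr).mpr hr1
  obtain ⟨k, hk⟩ : ∃ k : ℝ, k = Beb / Bee := ⟨_, rfl⟩
  have hkB : Bee * k = Beb := by rw [hk]; exact mul_div_cancel₀ _ hBee.ne'
  obtain ⟨u, hu⟩ : ∃ u : ℝ, u = Dee / Bee := ⟨_, rfl⟩
  have huB : Bee * u = Dee := by rw [hu]; exact mul_div_cancel₀ _ hBee.ne'
  obtain ⟨v, hv⟩ : ∃ v : ℝ, v = Dbb / Bbb := ⟨_, rfl⟩
  have hvB : Bbb * v = Dbb := by rw [hv]; exact mul_div_cancel₀ _ hBbb.ne'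
  obtain ⟨q, hq⟩ : ∃ q : ℝ, q = Bee / Bbb := ⟨_, rfl⟩
  have hqB : Bbb * q = Bee := by rw [hq]; exact mul_div_cancel₀ _ hBbb.ne'
  have hq0 : 0 < q := by rw [hq]; exact div_pos hBee hBbb
  have e1 : L / r = L * i := by rw [hi, div_eq_mul_inv]
  have e2 : L ^ 2 / r ^ 2 = L ^ 2 * i ^ 2 := by rw [hi, div_eq_mul_inv, inv_pow]
  have e3 : L ^ 2 * k ^ 2 / r ^ 2 = L ^ 2 * k ^ 2 * i ^ 2 := by rw [hi, div_eq_mul_inv, inv_pow]
  have e4 : L * s / r ^ 3 = L * s * i ^ 3 := by rw [hi, div_eq_mul_inv, inv_pow]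
  have e5 : Bee / Bbb / r ^ 2 = q * i ^ 2 := by rw [hi, div_eq_mul_inv _ (r ^ 2), inv_pow, hq]
  rw [← hk, e3, e4] at h4
  rw [e1] at h1
  rw [e2] at h2
  rw [← hu, ← hv, e5]
  rw [h3, mul_zero, sub_zero] at eq0
  have eq1' : Dee * pbb + Bee * fbb + Dbb * pee + Bbb * fee - 2 * Beb * feb = 0 := by
    rw [h3, mul_zero, sub_zero] at eq1
    exact eq1
  have hX := final_ineq_h1 Bee Beb Bbb fee feb fbb k i s L ε W hBee hdet hkB h2 h4
  have hX2 := final_ineq_h2 Bee Beb Bbb Dee Dbb pee pbb fee feb fbb u v huB hvB eq0 eq1'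
  have hpee : pee = -(ε * (L * i * W)) := by linarith only [h1]
  have h8 := final_ineq_h3 Bee Bbb pee _ u v q i s L ε W hBbb hL hε hW hi0 hqB hpee hX hX2
  exact final_ineq_h4 u v q i s L r hr hr1 hrs hri hi0 hi1 hq0 h8

end WRatio
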