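import Pool.Agent.Helper729.WR.Defs



namespace WRatio



theorem hess_C1 (h : EE 3 → ℝ) (hh : ContDiffOn ℝ 3 h {0}ᶜ) : ContDiffOn ℝ 1 (hess h) {0}ᶜ := by
  have ho : IsOpen ({0}ᶜ : Set (EE 3)) := isOpen_compl_singleton
  have h1 : ContDiffOn ℝ 2 (fderiv ℝ h) {0}ᶜ := hh.fderiv_of_isOpen ho (by norm_num)
  have h2 : ContDiffOn ℝ 1 (fderiv ℝ (fderiv ℝ h)) {0}ᶜ := h1.fderiv_of_isOpen ho (by norm_num)
  exact h2

end WRatio
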