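import Pool.Agent.Helper729.WR.Defs
import Pool.Agent.Helper729.WR.P_fderiv_hom



namespace WRatio



theorem hess_kernel (h : EE 3 → ℝ) (hh : ContDiffOn ℝ 3 h {0}ᶜ)
    (hhom : ∀ t : ℝ, 0 < t → ∀ x, h (t • x) = t * h x) (x : EE 3) (hx : x ≠ 0) (v : EE 3) :
    hess h x x v = 0 := by
  have hat : ContDiffAt ℝ 3 h x := hh.contDiffAt (isOpen_compl_singleton.mem_nhds hx)
  have hfd : ContDiffAt ℝ 2 (fderiv ℝ h) x := hat.fderiv_right (by norm_num)
  have hd : DifferentiableAt ℝ (fderiv ℝ h) x := hfd.differentiableAt (by norm_num)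
  have hline : HasDerivAt (fun s : ℝ => s • x) x 1 := by
    have := (hasDerivAt_id (1 : ℝ)).smul_const x
    simpa using this
  have hdx : HasFDerivAt (fderiv ℝ h) (fderiv ℝ (fderiv ℝ h) x) ((1 : ℝ) • x) := by
    rw [one_smul]
    exact hd.hasFDerivAt
  have h1 : HasDerivAt (fun s : ℝ => fderiv ℝ h (s • x)) (fderiv ℝ (fderiv ℝ h) x x) 1 :=
    HasFDerivAt.comp_hasDerivAt (l := fderiv ℝ h) (f := fun s : ℝ => s • x) 1 hdx hline
  have h2 : HasDerivAt (fun s : ℝ => fderiv ℝ h (s • x)) 0 1 := by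
    refine (hasDerivAt_const (1 : ℝ) (fderiv ℝ h x)).congr_of_eventuallyEq ?_
    filter_upwards [lt_mem_nhds (show (0 : ℝ) < 1 by norm_num)] with s hs
    exact fderiv_hom h hhom s hs x
  have h3 := h1.unique h2
  unfold hess
  rw [h3]
  rfl

end WRatio
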