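import Pool.Agent.Helper729.WR.Defs



namespace WRatio



theorem hess_sub (h k : EE 3 → ℝ) (hh : ContDiffOn ℝ 3 h {0}ᶜ) (hk : ContDiffOn ℝ 3 k {0}ᶜ)
    (x : EE 3) (hx : x ≠ 0) : hess (fun y => h y - k y) x = hess h x - hess k x := by
  have hopen : IsOpen ({0}ᶜ : Set (EE 3)) := isOpen_compl_singleton
  have hH : ∀ y : EE 3, y ≠ 0 → ContDiffAt ℝ 3 h y := fun y hy =>
    hh.contDiffAt (hopen.mem_nhds hy)
  have hK : ∀ y : EE 3, y ≠ 0 → ContDiffAt ℝ 3 k y := fun y hy =>
    hk.contDiffAt (hopen.mem_nhds hy)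
  have hev : fderiv ℝ (fun y => h y - k y) =ᶠ[nhds x] fun y => fderiv ℝ h y - fderiv ℝ k y := by
    filter_upwards [hopen.mem_nhds (show x ∈ ({0}ᶜ : Set (EE 3)) from hx)] with y hy
    exact fderiv_fun_sub ((hH y hy).differentiableAt (by norm_num))
      ((hK y hy).differentiableAt (by norm_num))
  have dH : DifferentiableAt ℝ (fderiv ℝ h) x :=
    ((hH x hx).fderiv_right (m := 2) (by norm_num)).differentiableAt (by norm_num)
  have dK : DifferentiableAt ℝ (fderiv ℝ k) x :=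
    ((hK x hx).fderiv_right (m := 2) (by norm_num)).differentiableAt (by norm_num)
  unfold hess
  rw [hev.fderiv_eq]
  exact fderiv_fun_sub dH dK

end WRatio
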