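import Pool.Agent.Helper729.WR.Defs



namespace WRatio



theorem hess_symm (h : EE 3 → ℝ) (hh : ContDiffOn ℝ 3 h {0}ᶜ) (x : EE 3) (hx : x ≠ 0) (v w : EE 3) :
    hess h x v w = hess h x w v := by
  have hopen : IsOpen ({0}ᶜ : Set (EE 3)) := isOpen_compl_singleton
  have hat : ContDiffAt ℝ 3 h x := hh.contDiffAt (hopen.mem_nhds hx)
  have hs : IsSymmSndFDerivAt ℝ h x := by
    apply hat.isSymmSndFDerivAt
    simp only [minSmoothness_of_isRCLikeNormedField]
    exact_mod_cast (by norm_num : (2 : ℕ) ≤ 3)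
  exact hs v w

end WRatio
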