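import Pool.Agent.Helper729.WR.Defs
import Pool.Agent.Helper729.WR.P_minor_eq



namespace WRatio



theorem mixed_eq (A B : EE 3 →L[ℝ] EE 3 →L[ℝ] ℝ) (hA : ∀ v w, A v w = A w v)
    (hB : ∀ v w, B v w = B w v) (x : EE 3)
    (hxA : ∀ v, A x v = 0) (hxB : ∀ v, B x v = 0) (v w : EE 3) :
    (A v v * B w w + A w w * B v v - 2 * A v w * B v w) * ‖x‖ ^ 2
      = (e2 (A + B) - e2 A - e2 B) * (det3 v w x) ^ 2 := by
  have h1 := minor_eq A hA x hxA v w
  have h2 := minor_eq B hB x hxB v w
  have hAB : ∀ v w, (A + B) v w = (A + B) w v := by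
    intro v w
    show A v w + B v w = A w v + B w v
    rw [hA v w, hB v w]
  have hxAB : ∀ v, (A + B) x v = 0 := by
    intro v
    show A x v + B x v = 0
    rw [hxA v, hxB v, add_zero]
  have h3 := minor_eq (A + B) hAB x hxAB v w
  have e1 : (A + B) v v = A v v + B v v := rfl
  have e2' : (A + B) w w = A w w + B w w := rfl
  have e3 : (A + B) v w = A v w + B v w := rfl
  rw [e1, e2', e3] at h3
  linear_combination h3 - h1 - h2

end WRatio
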