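import Pool.Agent.Helper729.WR.Defs



namespace WRatio



theorem pol_lin_aux (s t : ℝ) (U V Y : EE 3 →L[ℝ] EE 3 →L[ℝ] ℝ) :
    e2 ((s • U + t • V) + Y) - e2 (s • U + t • V) - e2 Y =
      s * (e2 (U + Y) - e2 U - e2 Y) + t * (e2 (V + Y) - e2 V - e2 Y) := by
  unfold e2
  simp only [_root_.add_apply, _root_.smul_apply, smul_eq_mul]
  ring

theorem pol_sub_aux (a c : EE 3 →L[ℝ] EE 3 →L[ℝ] ℝ) :
    e2 ((a + c) + (a - c)) - e2 (a + c) - e2 (a - c) = 2 * (e2 a - e2 c) := by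
  unfold e2
  simp only [_root_.add_apply, _root_.sub_apply]
  ring

theorem pol_neg_aux (U Y : EE 3 →L[ℝ] EE 3 →L[ℝ] ℝ) :
    e2 (U + -Y) - e2 U - e2 (-Y) = -(e2 (U + Y) - e2 U - e2 Y) := by
  unfold e2
  simp only [_root_.add_apply, _root_.neg_apply]
  ring

theorem pol_zero (a c a' c' : EE 3 →L[ℝ] EE 3 →L[ℝ] ℝ)
    (hanti : a - c = -(a' - c')) (hratio : e2 a' * e2 c = e2 c' * e2 a) :
    e2 ((e2 a' • (a + c) + e2 a • (a' + c')) + (a - c))
      - e2 (e2 a' • (a + c) + e2 a • (a' + c')) - e2 (a - c) = 0 := by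
  have h1 := pol_lin_aux (e2 a') (e2 a) (a + c) (a' + c') (a - c)
  have h2 := pol_sub_aux a c
  have h3 : e2 ((a' + c') + (a - c)) - e2 (a' + c') - e2 (a - c) = -(2 * (e2 a' - e2 c')) := by
    rw [hanti, pol_neg_aux, pol_sub_aux]
  rw [h1, h2, h3]
  linear_combination (-2) * hratio

end WRatio
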