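import Pool.Agent.Helper729.WR.Defs
import Pool.Agent.Helper729.WR.P_mixed_eq
import Pool.Agent.Helper729.WR.P_pol_zero



namespace WRatio



set_option synthInstance.maxHeartbeats 400000 in
set_option maxHeartbeats 4000000 in
theorem key_alg (a c a' c' : EE 3 →L[ℝ] EE 3 →L[ℝ] ℝ) (x : EE 3) (hx0 : x ≠ 0)
    (ha : ∀ v w, a v w = a w v) (hc : ∀ v w, c v w = c w v)
    (ha' : ∀ v w, a' v w = a' w v) (hc' : ∀ v w, c' v w = c' w v)
    (hxa : ∀ v, a x v = 0) (hxc : ∀ v, c x v = 0) (hxa' : ∀ v, a' x v = 0) (hxc' : ∀ v, c' x v = 0)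
    (hanti : a - c = -(a' - c')) (hratio : e2 a' * e2 c = e2 c' * e2 a) (v w : EE 3) :
    (e2 a' • (a + c) + e2 a • (a' + c')) v v * (a - c) w w
      + (e2 a' • (a + c) + e2 a • (a' + c')) w w * (a - c) v v
      - 2 * (e2 a' • (a + c) + e2 a • (a' + c')) v w * (a - c) v w = 0 := by
  have h1 := mixed_eq (e2 a' • (a + c) + e2 a • (a' + c')) (a - c)
    (by intro v w; simp [ha v w, hc v w, ha' v w, hc' v w])
    (by intro v w; simp [ha v w, hc v w]) x
    (by intro v; simp [hxa v, hxc v, hxa' v, hxc' v])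
    (by intro v; simp [hxa v, hxc v]) v w
  rw [pol_zero a c a' c' hanti hratio, zero_mul] at h1
  have h2 : (‖x‖ ^ 2 : ℝ) ≠ 0 := by
    have := norm_pos_iff.2 hx0
    positivity
  exact (mul_eq_zero.1 h1).resolve_right h2

end WRatio
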