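import Pool.Agent.Helper729.WR.Defs



namespace WRatio



/-- one-variable restriction of a function which is `C^2` near `x`. -/
theorem line_derivs (f : EE 3 → ℝ) (x : EE 3) (hf : ContDiffAt ℝ 2 f x) (v : EE 3) :
    (∀ᶠ t in nhds (0 : ℝ), HasDerivAt (fun s : ℝ => f (x + s • v)) (fderiv ℝ f (x + t • v) v) t) ∧
      HasDerivAt (fun t : ℝ => fderiv ℝ f (x + t • v) v) (hess f x v v) 0 := by
  have hg : ∀ t : ℝ, HasDerivAt (fun s : ℝ => x + s • v) v t := by
    intro t
    have h1 := ((hasDerivAt_id t).smul_const v).const_add x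
    simpa using h1
  have hx0 : x + (0 : ℝ) • v = x := by simp
  constructor
  · have h2 : ∀ᶠ y in nhds x, ContDiffAt ℝ 2 f y := hf.eventually (by simp)
    have hc : Filter.Tendsto (fun s : ℝ => x + s • v) (nhds 0) (nhds x) := by
      have h3 : Filter.Tendsto (fun s : ℝ => x + s • v) (nhds 0) (nhds (x + (0 : ℝ) • v)) :=
        (hg 0).continuousAt
      rw [hx0] at h3
      exact h3
    filter_upwards [hc.eventually h2] with t ht
    have h4 : HasFDerivAt f (fderiv ℝ f (x + t • v)) (x + t • v) :=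
      (ht.differentiableAt (by norm_num)).hasFDerivAt
    exact h4.comp_hasDerivAt t (hg t)
  · have h5 : ContDiffAt ℝ 1 (fderiv ℝ f) x := hf.fderiv_right (by norm_num)
    have h6 : HasFDerivAt (fderiv ℝ f) (hess f x) (x + (0 : ℝ) • v) := by
      rw [hx0]
      exact (h5.differentiableAt (by norm_num)).hasFDerivAt
    have h7 : HasDerivAt (fun t : ℝ => fderiv ℝ f (x + t • v)) (hess f x v) 0 :=
      h6.comp_hasDerivAt (0 : ℝ) (hg 0)
    have h8 := (ContinuousLinearMap.apply ℝ ℝ v).hasFDerivAt.comp_hasDerivAt (0 : ℝ) h7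
    exact h8

end WRatio
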