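import Pool.Agent.Helper729.WR.Defs



namespace WRatio



theorem linear_rep (f : EE 3 → ℝ) (hadd : ∀ x y, f (x + y) = f x + f y)
    (hhom : ∀ t : ℝ, 0 < t → ∀ x, f (t • x) = t * f x) (hodd : ∀ x, f (-x) = - f x) :
    ∃ a : EE 3, ∀ x, f x = inner ℝ a x := by
  have h0 : f 0 = 0 := by
    have := hadd 0 0
    rw [add_zero] at this
    linarith
  have hsmul : ∀ (t : ℝ) (x : EE 3), f (t • x) = t * f x := by
    intro t x
    rcases lt_trichotomy t 0 with ht | ht | ht
    · have h1 := hhom (-t) (by linarith) x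
      have h2 := hodd (t • x)
      rw [← neg_smul, h1] at h2
      linarith
    · rw [ht, zero_smul, h0, zero_mul]
    · exact hhom t ht x
  let L : EE 3 →ₗ[ℝ] ℝ :=
    { toFun := f
      map_add' := hadd
      map_smul' := fun t x => by rw [hsmul t x]; rfl }
  let L' : EE 3 →L[ℝ] ℝ := LinearMap.toContinuousLinearMap L
  refine ⟨(InnerProductSpace.toDual ℝ (EE 3)).symm L', fun x => ?_⟩
  rw [InnerProductSpace.toDual_symm_apply]
  rfl

end WRatio
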