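import Pool.Agent.Helper729.WR.Defs



namespace WRatio



theorem odd_fderiv (f : EE 3 → ℝ) (hodd : ∀ x, f (-x) = - f x) (x : EE 3) :
    fderiv ℝ f (-x) = fderiv ℝ f x := by
  have h1 : (fun y => f (-y)) = fun y => - f y := funext hodd
  have h2 : fderiv ℝ (fun y => f (-y)) x = - fderiv ℝ f (-x) := by
    by_cases hd : DifferentiableAt ℝ f (-x)
    · have := (hd.hasFDerivAt).comp x ((hasFDerivAt_id x).neg)
      have h := this.fderiv
      have e : (f ∘ Neg.neg : EE 3 → ℝ) = fun y => f (-y) := rfl
      rw [e] at h
      rw [h]
      ext v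
      simp
    · have hnd : ¬ DifferentiableAt ℝ (fun y => f (-y)) x := by
        intro h
        apply hd
        have e : f = (fun y => f (-y)) ∘ (fun y => -y) := by funext y; simp
        rw [e]
        apply DifferentiableAt.comp
        · rw [neg_neg]; exact h
        · exact differentiableAt_id.neg
      rw [fderiv_zero_of_not_differentiableAt hd, fderiv_zero_of_not_differentiableAt hnd, neg_zero]
  have h3 : fderiv ℝ (fun y => - f y) x = - fderiv ℝ f x := fderiv_fun_neg
  rw [h1, h3] at h2
  exact (neg_injective h2).symm

end WRatio
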