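import Pool.Agent.Helper729.WR.Defs



namespace WRatio



/-- the equation differentiated along `e`. -/
theorem pde_deriv (B H : EE 3 → (EE 3 →L[ℝ] EE 3 →L[ℝ] ℝ)) (hB : ContDiffOn ℝ 1 B {0}ᶜ)
    (hH : ContDiffOn ℝ 1 H {0}ᶜ)
    (heq : ∀ x, x ≠ 0 → ∀ v w, B x v v * H x w w + B x w w * H x v v - 2 * B x v w * H x v w = 0)
    (x : EE 3) (hx : x ≠ 0) (e v w : EE 3) :
    fderiv ℝ B x e v v * H x w w + B x v v * fderiv ℝ H x e w w
      + fderiv ℝ B x e w w * H x v v + B x w w * fderiv ℝ H x e v v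
      - 2 * fderiv ℝ B x e v w * H x v w - 2 * B x v w * fderiv ℝ H x e v w = 0 := by
  have hopen : IsOpen ({0}ᶜ : Set (EE 3)) := isOpen_compl_singleton
  have hxm : ({0}ᶜ : Set (EE 3)) ∈ nhds x := hopen.mem_nhds hx
  have hBd : HasFDerivAt B (fderiv ℝ B x) x :=
    ((hB.contDiffAt hxm).differentiableAt (by norm_num)).hasFDerivAt
  have hHd : HasFDerivAt H (fderiv ℝ H x) x :=
    ((hH.contDiffAt hxm).differentiableAt (by norm_num)).hasFDerivAt
  have h0 : HasDerivAt (fun t : ℝ => x + t • e) e 0 := by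
    simpa using ((hasDerivAt_id (0:ℝ)).smul_const e).const_add x
  have hb : HasDerivAt (fun t : ℝ => B (x + t • e)) (fderiv ℝ B x e) 0 := by
    exact HasFDerivAt.comp_hasDerivAt_of_eq (𝕜 := ℝ) (F := EE 3) (E := (EE 3 →L[ℝ] EE 3 →L[ℝ] ℝ)) (0:ℝ) hBd h0 (by simp)
  have hh : HasDerivAt (fun t : ℝ => H (x + t • e)) (fderiv ℝ H x e) 0 := by
    exact HasFDerivAt.comp_hasDerivAt_of_eq (𝕜 := ℝ) (F := EE 3) (E := (EE 3 →L[ℝ] EE 3 →L[ℝ] ℝ)) (0:ℝ) hHd h0 (by simp)
  have hbv : ∀ p q, HasDerivAt (fun t : ℝ => B (x + t • e) p q) (fderiv ℝ B x e p q) 0 := by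
    intro p q
    have := (hb.clm_apply (hasDerivAt_const 0 p)).clm_apply (hasDerivAt_const 0 q)
    simpa using this
  have hhv : ∀ p q, HasDerivAt (fun t : ℝ => H (x + t • e) p q) (fderiv ℝ H x e p q) 0 := by
    intro p q
    have := (hh.clm_apply (hasDerivAt_const 0 p)).clm_apply (hasDerivAt_const 0 q)
    simpa using this
  have h1 := (hbv v v).mul (hhv w w)
  have h2 := (hbv w w).mul (hhv v v)
  have h3 := ((hbv v w).const_mul 2).mul (hhv v w)
  have h4 := (h1.add h2).sub h3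
  have hz : (fun t : ℝ => B (x + t • e) v v * H (x + t • e) w w
      + B (x + t • e) w w * H (x + t • e) v v
      - 2 * B (x + t • e) v w * H (x + t • e) v w) =ᶠ[nhds 0] fun _ => 0 := by
    have hc : Filter.Tendsto (fun t : ℝ => x + t • e) (nhds 0) (nhds x) := by
      have := h0.continuousAt.tendsto
      simpa using this
    filter_upwards [hc.eventually hxm] with t ht
    exact heq _ ht v w
  have h5 := h4.congr_of_eventuallyEq (f₁ := fun _ => 0) (by
    refine Filter.EventuallyEq.trans hz.symm ?_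
    exact Filter.Eventually.of_forall (fun t => rfl))
  have h6 := h5.unique (hasDerivAt_const (0:ℝ) (0:ℝ))
  simp only [zero_smul, add_zero] at h6
  linarith [h6]

end WRatio
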