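import Pool.Agent.Helper729.WR.Defs



namespace WRatio



theorem second_test (p p' : ℝ → ℝ) (c : ℝ) (hp : ∀ᶠ t in nhds (0 : ℝ), HasDerivAt p (p' t) t)
    (hp' : HasDerivAt p' c 0) (hmax : IsLocalMax p 0) : p' 0 = 0 ∧ c ≤ 0 := by
  have h0 : p' 0 = 0 := hmax.hasDerivAt_eq_zero hp.self_of_nhds
  refine ⟨h0, ?_⟩
  by_contra hcon
  push Not at hcon
  have hs : ∀ᶠ t in nhdsWithin (0 : ℝ) {0}ᶜ, 0 < slope p' 0 t :=
    (hasDerivAt_iff_tendsto_slope.mp hp').eventually (lt_mem_nhds hcon)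
  rw [eventually_nhdsWithin_iff] at hs
  have hmax' : ∀ᶠ t in nhds (0 : ℝ), p t ≤ p 0 := hmax
  obtain ⟨ε, hε, H⟩ := Metric.eventually_nhds_iff.mp (hp.and (hs.and hmax'))
  have hH : ∀ t : ℝ, 0 ≤ t → t < ε → HasDerivAt p (p' t) t ∧ (t ∈ ({0}ᶜ : Set ℝ) →
      0 < slope p' 0 t) ∧ p t ≤ p 0 := by
    intro t ht1 ht2
    apply H
    rw [Real.dist_eq, sub_zero, abs_of_nonneg ht1]
    exact ht2
  have ht : (0 : ℝ) < ε / 2 := by positivity
  obtain ⟨ξ, hξ, hξe⟩ := exists_hasDerivAt_eq_slope p p' ht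
    (fun x hx => (hH x hx.1 (by linarith [hx.2])).1.continuousAt.continuousWithinAt)
    (fun x hx => (hH x hx.1.le (by linarith [hx.2])).1)
  have h1 := (hH ξ hξ.1.le (by linarith [hξ.2])).2.1 (by simpa using hξ.1.ne')
  have h2 := (hH (ε / 2) ht.le (by linarith)).2.2
  have h3 : 0 < p' ξ := by
    rw [slope_def_field, h0, sub_zero, sub_zero] at h1
    by_contra h4
    push Not at h4
    have := div_nonpos_of_nonpos_of_nonneg h4 hξ.1.le
    linarith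
  rw [hξe] at h3
  have h4 : (p (ε / 2) - p 0) / (ε / 2 - 0) ≤ 0 :=
    div_nonpos_of_nonpos_of_nonneg (by linarith) (by linarith)
  linarith

end WRatio
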