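import Pool.Agent.Helper729.WR.Defs



namespace WRatio



section gen

variable {E : Type*} [NormedAddCommGroup E] [NormedSpace ℝ E]

theorem fderiv_eval2 (H : E → E →L[ℝ] E →L[ℝ] ℝ) (x : E) (hd : DifferentiableAt ℝ H x)
    (a b v : E) : fderiv ℝ (fun y => H y a b) x v = fderiv ℝ H x v a b := by
  have h1 : DifferentiableAt ℝ (fun y => H y a) x := by fun_prop
  rw [fderiv_clm_apply h1 (by fun_prop), fderiv_clm_apply hd (by fun_prop)]
  simp

theorem fderiv_eval1 (H : E → E →L[ℝ] ℝ) (x : E) (hd : DifferentiableAt ℝ H x)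
    (a v : E) : fderiv ℝ (fun y => H y a) x v = fderiv ℝ H x v a := by
  rw [fderiv_clm_apply hd (by fun_prop)]
  simp

theorem third_symm_gen (h : E → ℝ) (x : E) (h3' : ∀ᶠ y in nhds x, ContDiffAt ℝ 3 h y)
    (e v w : E) :
    fderiv ℝ (fderiv ℝ (fun y => fderiv ℝ h y e)) x v w
      = fderiv ℝ (fderiv ℝ (fderiv ℝ h)) x e v w := by
  have h3x : ContDiffAt ℝ 3 h x := h3'.self_of_nhds
  have h2 : ∀ y : E, ContDiffAt ℝ 3 h y → ContDiffAt ℝ 2 (fderiv ℝ h) y := fun y hy =>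
    hy.fderiv_right (by norm_num)
  have h1 : ContDiffAt ℝ 1 (fderiv ℝ (fderiv ℝ h)) x :=
    (h2 x h3x).fderiv_right (by norm_num)
  have hd1 : ∀ y : E, ContDiffAt ℝ 3 h y → DifferentiableAt ℝ (fderiv ℝ h) y := fun y hy =>
    (h2 y hy).differentiableAt (by norm_num)
  have hd2 : DifferentiableAt ℝ (fderiv ℝ (fderiv ℝ h)) x := h1.differentiableAt (by norm_num)
  -- symmetry in the last two slots
  have hs1 : fderiv ℝ (fderiv ℝ (fderiv ℝ h)) x v w e = fderiv ℝ (fderiv ℝ (fderiv ℝ h)) x v e w := by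
    have heq : (fun y => fderiv ℝ (fderiv ℝ h) y w e) =ᶠ[nhds x]
        fun y => fderiv ℝ (fderiv ℝ h) y e w := by
      filter_upwards [h3'] with y hy
      exact (hy.isSymmSndFDerivAt (by simp; norm_num)).eq w e
    have := heq.fderiv_eq (𝕜 := ℝ)
    rw [← fderiv_eval2 _ x hd2 w e v, ← fderiv_eval2 _ x hd2 e w v, this]
  -- symmetry in the first two slots
  have hs2 : fderiv ℝ (fderiv ℝ (fderiv ℝ h)) x v e = fderiv ℝ (fderiv ℝ (fderiv ℝ h)) x e v :=
    ((h2 x h3x).isSymmSndFDerivAt (by simp)).eq v e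
  have hf2 : ContDiffAt ℝ 2 (fun y => fderiv ℝ h y e) x := (h2 x h3x).clm_apply contDiffAt_const
  have hf1 : DifferentiableAt ℝ (fderiv ℝ (fun y => fderiv ℝ h y e)) x :=
    (hf2.fderiv_right (m := 1) (by norm_num)).differentiableAt (by norm_num)
  have key : fderiv ℝ (fderiv ℝ (fun y => fderiv ℝ h y e)) x v w
      = fderiv ℝ (fderiv ℝ (fderiv ℝ h)) x v w e := by
    rw [← fderiv_eval1 _ x hf1 w v, ← fderiv_eval2 _ x hd2 w e v]
    have heq : (fun y => fderiv ℝ (fun y => fderiv ℝ h y e) y w) =ᶠ[nhds x]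
        fun y => fderiv ℝ (fderiv ℝ h) y w e := by
      filter_upwards [h3'] with y hy
      exact fderiv_eval1 _ y (hd1 y hy) e w
    rw [heq.fderiv_eq]
  rw [key, hs1, hs2]

end gen

theorem third_symm (h : EE 3 → ℝ) (hh : ContDiffOn ℝ 3 h {0}ᶜ) (x : EE 3) (hx : x ≠ 0)
    (e v w : EE 3) :
    hess (fun y => fderiv ℝ h y e) x v w = fderiv ℝ (hess h) x e v w := by
  refine third_symm_gen h x ?_ e v w
  filter_upwards [isOpen_compl_singleton.mem_nhds hx] with y hy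
  exact hh.contDiffAt (isOpen_compl_singleton.mem_nhds hy)

end WRatio
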