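import Pool.Agent.Helper729.WR.Defs



namespace WRatio



/-- the barrier along `e`. -/
theorem wder_e (L s r t : ℝ) (hr : 0 < r) :
    HasDerivAt (fun t : ℝ => Real.exp (L * ((s + t) / r))) (L / r * Real.exp (L * ((s + t) / r))) t := by
  have h1 : HasDerivAt (fun t : ℝ => L * ((s + t) / r)) (L * (1 / r)) t :=
    (((hasDerivAt_id t).const_add s).div_const r).const_mul L
  have h2 := h1.exp
  have e : L / r * Real.exp (L * ((s + t) / r)) = Real.exp (L * ((s + t) / r)) * (L * (1 / r)) := by
    ring
  rw [e]
  exact h2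

end WRatio
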