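import Pool.Agent.Helper729.WR.Defs



namespace WRatio



theorem wder_v_sqrt (r : ℝ) (hr : 0 < r) (t : ℝ) :
    HasDerivAt (fun t : ℝ => Real.sqrt (r ^ 2 + t ^ 2)) (t / Real.sqrt (r ^ 2 + t ^ 2)) t := by
  have hpos : 0 < r ^ 2 + t ^ 2 := by positivity
  have h1 : HasDerivAt (fun t : ℝ => r ^ 2 + t ^ 2) (2 * t) t := by
    have h2 := (hasDerivAt_pow 2 t).const_add (r ^ 2)
    simpa using h2
  have h3 := h1.sqrt hpos.ne'
  have hs : 0 < Real.sqrt (r ^ 2 + t ^ 2) := Real.sqrt_pos.2 hpos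
  refine h3.congr_deriv ?_
  field_simp

theorem wder_v_lin (s k t : ℝ) : HasDerivAt (fun t : ℝ => s - k * t) (-k) t := by
  have h := ((hasDerivAt_id t).const_mul k).const_sub s
  simpa using h

theorem wder_v_u (s r k : ℝ) (hr : 0 < r) (t : ℝ) :
    HasDerivAt (fun t : ℝ => (s - k * t) / Real.sqrt (r ^ 2 + t ^ 2))
      ((-k) / Real.sqrt (r ^ 2 + t ^ 2) - (s - k * t) * t / (Real.sqrt (r ^ 2 + t ^ 2)) ^ 3) t := by
  have hpos : 0 < r ^ 2 + t ^ 2 := by positivity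
  have hs : 0 < Real.sqrt (r ^ 2 + t ^ 2) := Real.sqrt_pos.2 hpos
  have h1 := (wder_v_lin s k t).fun_div (wder_v_sqrt r hr t) hs.ne'
  refine h1.congr_deriv ?_
  field_simp

theorem wder_v_exp (L s r k : ℝ) (hr : 0 < r) (t : ℝ) :
    HasDerivAt (fun t : ℝ => Real.exp (L * ((s - k * t) / Real.sqrt (r ^ 2 + t ^ 2))))
      (L * ((-k) / Real.sqrt (r ^ 2 + t ^ 2) - (s - k * t) * t / (Real.sqrt (r ^ 2 + t ^ 2)) ^ 3)
        * Real.exp (L * ((s - k * t) / Real.sqrt (r ^ 2 + t ^ 2)))) t := by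
  have h1 := ((wder_v_u s r k hr t).const_mul L).exp
  refine h1.congr_deriv ?_
  ring

theorem wder_v_w (s r k : ℝ) (hr : 0 < r) :
    HasDerivAt (fun t : ℝ => (-k) / Real.sqrt (r ^ 2 + t ^ 2) -
      (s - k * t) * t / (Real.sqrt (r ^ 2 + t ^ 2)) ^ 3) (- (s / r ^ 3)) 0 := by
  have hq := wder_v_sqrt r hr 0
  have hs0 : Real.sqrt (r ^ 2 + 0 ^ 2) = r := by
    rw [zero_pow (by norm_num), add_zero, Real.sqrt_sq hr.le]
  have hne : Real.sqrt (r ^ 2 + 0 ^ 2) ≠ 0 := by rw [hs0]; exact hr.ne'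
  have h1 := (hasDerivAt_const (0 : ℝ) (-k)).fun_div hq hne
  have h2 := (wder_v_lin s k 0).fun_mul (hasDerivAt_id (0 : ℝ))
  have h3 := hq.fun_pow 3
  have hne3 : (Real.sqrt (r ^ 2 + 0 ^ 2)) ^ 3 ≠ 0 := pow_ne_zero _ hne
  have h4 := h2.fun_div h3 hne3
  have h5 := h1.fun_sub h4
  have h6 : ∀ x : ℝ, id x = x := fun _ => rfl
  simp only [h6] at h5
  refine h5.congr_deriv ?_
  rw [hs0]
  field_simp
  ring

/-- the barrier along `v = b - k e`. -/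
theorem wder_v (L s r k : ℝ) (hr : 0 < r) :
    (∀ t : ℝ, HasDerivAt (fun t : ℝ => Real.exp (L * ((s - k * t) / Real.sqrt (r ^ 2 + t ^ 2))))
      (L * ((-k) / Real.sqrt (r ^ 2 + t ^ 2) - (s - k * t) * t / (Real.sqrt (r ^ 2 + t ^ 2)) ^ 3)
        * Real.exp (L * ((s - k * t) / Real.sqrt (r ^ 2 + t ^ 2)))) t) ∧
    HasDerivAt (fun t : ℝ =>
      L * ((-k) / Real.sqrt (r ^ 2 + t ^ 2) - (s - k * t) * t / (Real.sqrt (r ^ 2 + t ^ 2)) ^ 3)
        * Real.exp (L * ((s - k * t) / Real.sqrt (r ^ 2 + t ^ 2))))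
      ((L ^ 2 * k ^ 2 / r ^ 2 - L * s / r ^ 3) * Real.exp (L * (s / r))) 0 := by
  refine ⟨fun t => wder_v_exp L s r k hr t, ?_⟩
  have h1 := ((wder_v_w s r k hr).const_mul L).fun_mul (wder_v_exp L s r k hr 0)
  have hs0 : Real.sqrt (r ^ 2 + 0 ^ 2) = r := by
    rw [zero_pow (by norm_num), add_zero, Real.sqrt_sq hr.le]
  refine h1.congr_deriv ?_
  rw [hs0, mul_zero, mul_zero, sub_zero, zero_div, sub_zero]
  field_simp
  ring

end WRatio
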