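import Pool.Agent.Helper729.WR.Defs



namespace WRatio



theorem wfun_line_e (L : ℝ) (x e : EE 3) (hx : ‖x‖ = 1) (he : ‖e‖ = 1) (t : ℝ) :
    wfun L e (x + t • e) = Real.exp (L * ((inner ℝ x e + t) / Real.sqrt (1 - (inner ℝ x e) ^ 2))) := by
  have h1 : inner ℝ (x + t • e) e = inner ℝ x e + t := by
    rw [inner_add_left, real_inner_smul_left, real_inner_self_eq_norm_sq, he]
    ring
  have h2 : ‖x + t • e‖ ^ 2 = 1 + 2 * t * inner ℝ x e + t ^ 2 := by
    rw [norm_add_sq_real, real_inner_smul_right, norm_smul, hx, he, mul_pow,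
      Real.norm_eq_abs, sq_abs]
    ring
  have h3 : ‖x + t • e‖ ^ 2 - (inner ℝ (x + t • e) e) ^ 2 = 1 - (inner ℝ x e) ^ 2 := by
    rw [h1, h2]; ring
  unfold wfun
  rw [h3, h1]

end WRatio
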