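import Pool.Agent.Helper729.WR.Defs



namespace WRatio



theorem wfun_line_v (L : ℝ) (x e b : EE 3) (hx : ‖x‖ = 1) (he : ‖e‖ = 1) (hb : ‖b‖ = 1)
    (hbx : inner ℝ b x = 0) (hbe : inner ℝ b e = 0) (hxe : (inner ℝ x e) ^ 2 < 1) (k t : ℝ) :
    wfun L e (x + t • (b - k • e)) = Real.exp (L * ((inner ℝ x e - k * t) /
      Real.sqrt ((Real.sqrt (1 - (inner ℝ x e) ^ 2)) ^ 2 + t ^ 2))) := by
  have hee : (inner ℝ e e : ℝ) = 1 := by
    rw [real_inner_self_eq_norm_sq, he]; norm_num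
  have hbb : (inner ℝ b b : ℝ) = 1 := by
    rw [real_inner_self_eq_norm_sq, hb]; norm_num
  have hxx : (inner ℝ x x : ℝ) = 1 := by
    rw [real_inner_self_eq_norm_sq, hx]; norm_num
  have hxb : (inner ℝ x b : ℝ) = 0 := by
    rw [real_inner_comm]; exact hbx
  have heb : (inner ℝ e b : ℝ) = 0 := by
    rw [real_inner_comm]; exact hbe
  have hex : (inner ℝ e x : ℝ) = inner ℝ x e := real_inner_comm _ _
  have h1 : (inner ℝ (x + t • (b - k • e)) e : ℝ) = inner ℝ x e - k * t := by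
    rw [inner_add_left, real_inner_smul_left, inner_sub_left, real_inner_smul_left, hee, hbe]
    ring
  have h2 : ‖x + t • (b - k • e)‖ ^ 2 = 1 - 2 * k * t * inner ℝ x e + t ^ 2 + k ^ 2 * t ^ 2 := by
    rw [← real_inner_self_eq_norm_sq]
    simp only [inner_add_left, inner_add_right, real_inner_smul_left, real_inner_smul_right,
      inner_sub_left, inner_sub_right, hee, hbb, hxx, hxb, heb, hex, hbx, hbe]
    ring
  unfold wfun
  rw [h1, h2, Real.sq_sqrt (by linarith)]
  congr 4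
  ring

end WRatio
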