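import Pool.Agent.Helper729.WR.Defs
import Pool.Agent.Helper729.WR.P_hess_symm
import Pool.Agent.Helper729.WR.P_hess_C1
import Pool.Agent.Helper729.WR.P_third_symm
import Pool.Agent.Helper729.WR.P_second_test
import Pool.Agent.Helper729.WR.P_line_derivs
import Pool.Agent.Helper729.WR.P_wder_e
import Pool.Agent.Helper729.WR.P_wder_v
import Pool.Agent.Helper729.WR.P_pde_deriv
import Pool.Agent.Helper729.WR.P_final_ineq
import Pool.Agent.Helper729.WR.P_notpar_e
import Pool.Agent.Helper729.WR.P_notpar_b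
import Pool.Agent.Helper729.WR.P_wfun_line_e
import Pool.Agent.Helper729.WR.P_wfun_line_v



namespace WRatio



/-- the one variable test along a line. -/
theorem line_test_aux (f w : EE 3 → ℝ) (x v : EE 3) (hf : ContDiffAt ℝ 2 f x) (q q' : ℝ → ℝ)
    (c ε : ℝ) (hq : ∀ t : ℝ, w (x + t • v) = q t) (hq' : ∀ t, HasDerivAt q (q' t) t)
    (hq'' : HasDerivAt q' c 0) (hmax : IsLocalMax (fun y => f y + ε * w y) x) :
    fderiv ℝ f x v + ε * q' 0 = 0 ∧ hess f x v v + ε * c ≤ 0 := by
  obtain ⟨hl1, hl2⟩ := line_derivs f x hf v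
  have h := second_test (fun t : ℝ => f (x + t • v) + ε * q t)
    (fun t : ℝ => fderiv ℝ f (x + t • v) v + ε * q' t) (hess f x v v + ε * c) ?_ ?_ ?_
  · obtain ⟨h1, h2⟩ := h
    refine ⟨?_, h2⟩
    simpa using h1
  · filter_upwards [hl1] with t ht
    exact ht.add ((hq' t).const_mul ε)
  · exact hl2.add (hq''.const_mul ε)
  · have hc : Filter.Tendsto (fun t : ℝ => x + t • v) (nhds 0) (nhds x) := by
      have : Continuous (fun t : ℝ => x + t • v) := by fun_prop
      have h2 := this.tendsto 0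
      simpa using h2
    have h3 := hc.eventually hmax
    filter_upwards [h3] with t ht
    have e1 : w (x + t • v) = q t := hq t
    have e2 : w x = q 0 := by
      have := hq 0
      simpa using this
    simp only [zero_smul, add_zero]
    rw [← e1, ← e2]
    exact ht

/-- the inequality at a local maximum of `f + ε w`, `f = ∂_e φ`. -/
theorem point_ineq (φ : EE 3 → ℝ) (hφ : ContDiffOn ℝ 3 φ {0}ᶜ)
    (B : EE 3 → (EE 3 →L[ℝ] EE 3 →L[ℝ] ℝ)) (hB : ContDiffOn ℝ 1 B {0}ᶜ)
    (hBs : ∀ x, x ≠ 0 → ∀ v w, B x v w = B x w v)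
    (hpos : ∀ x, x ≠ 0 → ∀ v, (∀ t : ℝ, v ≠ t • x) → 0 < B x v v)
    (heq : ∀ x, x ≠ 0 → ∀ v w, B x v v * hess φ x w w + B x w w * hess φ x v v
      - 2 * B x v w * hess φ x v w = 0)
    (x e b : EE 3) (hx : ‖x‖ = 1) (he : ‖e‖ = 1) (hb : ‖b‖ = 1) (hbx : inner ℝ b x = 0)
    (hbe : inner ℝ b e = 0) (hxe : (inner ℝ x e) ^ 2 < 1) (L ε : ℝ) (hL : 0 < L) (hε : 0 < ε)
    (hmax : IsLocalMax (fun y => fderiv ℝ φ y e + ε * wfun L e y) x) :
    L ≤ |fderiv ℝ B x e b b / B x b b| + |fderiv ℝ B x e e e / B x e e|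
        + (B x e e / B x b b) / (1 - (inner ℝ x e) ^ 2) := by
  have hx0 : x ≠ 0 := by
    intro h
    rw [h, norm_zero] at hx
    exact zero_ne_one hx
  have hnx : ({0}ᶜ : Set (EE 3)) ∈ nhds x := isOpen_compl_singleton.mem_nhds hx0
  have hφx : ContDiffAt ℝ 3 φ x := hφ.contDiffAt hnx
  have hfd : ContDiffAt ℝ 2 (fderiv ℝ φ) x := by
    apply hφx.fderiv_right
    norm_num
  have hf : ContDiffAt ℝ 2 (fun y => fderiv ℝ φ y e) x := hfd.clm_apply contDiffAt_const
  have hff : ∀ v, fderiv ℝ (fun y => fderiv ℝ φ y e) x v = hess φ x v e := by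
    intro v
    have h1 : HasFDerivAt (fderiv ℝ φ) (fderiv ℝ (fderiv ℝ φ) x) x :=
      (hfd.differentiableAt (by norm_num)).hasFDerivAt
    have h2 := (h1.clm_apply (hasFDerivAt_const e x)).fderiv
    rw [h2]
    simp [hess]
  have hsym : ∀ v w, hess (fun y => fderiv ℝ φ y e) x v w = hess (fun y => fderiv ℝ φ y e) x w v := by
    intro v w
    have h := hf.isSymmSndFDerivAt (by simp)
    exact h.eq v w
  set s : ℝ := inner ℝ x e with hs
  set r : ℝ := Real.sqrt (1 - s ^ 2) with hr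
  have hr0 : 0 < r := Real.sqrt_pos.2 (by linarith)
  have hr2 : r ^ 2 = 1 - s ^ 2 := Real.sq_sqrt (by linarith)
  have hr1 : r ≤ 1 := by
    rw [hr]
    apply Real.sqrt_le_one.2
    nlinarith [sq_nonneg s]
  have hBee : 0 < B x e e := hpos x hx0 e (notpar_e x e hx he hxe)
  have hBbb : 0 < B x b b := hpos x hx0 b (notpar_b x b hx hb hbx)
  have hBsym := hBs x hx0 e b
  set k : ℝ := B x e b / B x e e with hk
  have hkB : k * B x e e = B x e b := by
    rw [hk]
    field_simp
  have hdet : 0 < B x e e * B x b b - (B x e b) ^ 2 := by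
    have h1 : ∀ t : ℝ, b - k • e ≠ t • x := by
      intro t ht
      have h2 : inner ℝ b (b - k • e) = inner ℝ b (t • x) := by rw [ht]
      rw [inner_sub_right, inner_smul_right, inner_smul_right, hbx, hbe,
        real_inner_self_eq_norm_sq, hb] at h2
      norm_num at h2
    have h2 := hpos x hx0 _ h1
    have h3 : B x (b - k • e) (b - k • e) = B x b b - 2 * k * B x e b + k ^ 2 * B x e e := by
      simp only [map_sub, map_smul, _root_.sub_apply, _root_.smul_apply, smul_eq_mul]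
      rw [← hBsym]
      ring
    rw [h3] at h2
    have h4 := mul_pos h2 hBee
    nlinarith [h4, hkB]
  -- direction e
  obtain ⟨h1, h2⟩ := line_test_aux (fun y => fderiv ℝ φ y e) (wfun L e) x e hf
    (fun t : ℝ => Real.exp (L * ((s + t) / r))) (fun t : ℝ => L / r * Real.exp (L * ((s + t) / r)))
    (L / r * (L / r * Real.exp (L * ((s + 0) / r)))) ε
    (fun t => wfun_line_e L x e hx he t) (fun t => wder_e L s r t hr0)
    ((wder_e L s r 0 hr0).const_mul (L / r)) hmax
  -- direction b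
  obtain ⟨h3, -⟩ := line_test_aux (fun y => fderiv ℝ φ y e) (wfun L e) x (b - (0 : ℝ) • e) hf
    _ _ _ ε
    (fun t => wfun_line_v L x e b hx he hb hbx hbe hxe 0 t) (wder_v L s r 0 hr0).1
    (wder_v L s r 0 hr0).2 hmax
  -- direction v
  obtain ⟨-, h4⟩ := line_test_aux (fun y => fderiv ℝ φ y e) (wfun L e) x (b - k • e) hf
    _ _ _ ε
    (fun t => wfun_line_v L x e b hx he hb hbx hbe hxe k t) (wder_v L s r k hr0).1
    (wder_v L s r k hr0).2 hmax
  have eq0 := heq x hx0 e b
  have eq1 := pde_deriv B (hess φ) hB (hess_C1 φ hφ) heq x hx0 e e b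
  have hv4 : hess (fun y => fderiv ℝ φ y e) x (b - k • e) (b - k • e)
      = fderiv ℝ (hess φ) x e b b - 2 * k * fderiv ℝ (hess φ) x e e b
        + k ^ 2 * fderiv ℝ (hess φ) x e e e := by
    have hs1 := hsym e b
    have t1 := third_symm φ hφ x hx0 e b b
    have t2 := third_symm φ hφ x hx0 e e b
    have t3 := third_symm φ hφ x hx0 e e e
    rw [← t1, ← t2, ← t3]
    simp only [map_sub, map_smul, _root_.sub_apply, _root_.smul_apply, smul_eq_mul]
    rw [← hs1]
    ring
  have hfin := final_ineq (B x e e) (B x e b) (B x b b) (fderiv ℝ B x e e e)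
    (fderiv ℝ B x e e b) (fderiv ℝ B x e b b) (hess φ x e e) (hess φ x e b) (hess φ x b b)
    (fderiv ℝ (hess φ) x e e e) (fderiv ℝ (hess φ) x e e b) (fderiv ℝ (hess φ) x e b b)
    r s L ε (Real.exp (L * (s / r))) hBee hBbb hdet hr0 hr1 (by rw [hr2]; ring) hL hε
    (Real.exp_pos _) eq0 eq1 ?_ ?_ ?_ ?_
  · rw [hr2] at hfin
    exact hfin
  · rw [hff e] at h1
    simpa using h1
  · rw [third_symm φ hφ x hx0 e e e] at h2
    have e3 : L / r * (L / r * Real.exp (L * ((s + 0) / r)))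
        = L ^ 2 / r ^ 2 * Real.exp (L * (s / r)) := by
      rw [add_zero]
      field_simp
    rw [e3] at h2
    exact h2
  · rw [hff] at h3
    rw [hess_symm φ hφ x hx0 e b]
    simpa using h3
  · rw [hv4] at h4
    rw [← hk]
    exact h4

end WRatio
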