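import Pool.Agent.Helper729.WR.Defs
import Pool.Agent.Helper729.WR.P_fderiv_hom
import Pool.Agent.Helper729.WR.P_fderiv_euler
import Pool.Agent.Helper729.WR.P_odd_fderiv
import Pool.Agent.Helper729.WR.P_exists_b
import Pool.Agent.Helper729.WR.P_bound
import Pool.Agent.Helper729.WR.P_argmax
import Pool.Agent.Helper729.WR.P_point_ineq



namespace WRatio



/-- the maximum principle: every partial derivative is dominated by the value at the pole. -/
theorem mp_main (φ : EE 3 → ℝ) (hφ : ContDiffOn ℝ 3 φ {0}ᶜ)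
    (hhom : ∀ t : ℝ, 0 < t → ∀ x, φ (t • x) = t * φ x) (hodd : ∀ x, φ (-x) = - φ x)
    (B : EE 3 → (EE 3 →L[ℝ] EE 3 →L[ℝ] ℝ)) (hB : ContDiffOn ℝ 1 B {0}ᶜ)
    (hBs : ∀ x, x ≠ 0 → ∀ v w, B x v w = B x w v)
    (hpos : ∀ x, x ≠ 0 → ∀ v, (∀ t : ℝ, v ≠ t • x) → 0 < B x v v)
    (heq : ∀ x, x ≠ 0 → ∀ v w, B x v v * hess φ x w w + B x w w * hess φ x v v
      - 2 * B x v w * hess φ x v w = 0)
    (e : EE 3) (he : ‖e‖ = 1) (x : EE 3) (hx : x ≠ 0) : fderiv ℝ φ x e ≤ φ e := by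
  by_contra hcon
  push Not at hcon
  have hxn : 0 < ‖x‖ := norm_pos_iff.mpr hx
  have he0 : e ≠ 0 := by
    rintro rfl
    simp at he
  have hx1 : ‖‖x‖⁻¹ • x‖ = 1 := by
    rw [norm_smul, norm_inv, norm_norm, inv_mul_cancel₀ hxn.ne']
  have hfx : fderiv ℝ φ (‖x‖⁻¹ • x) = fderiv ℝ φ x := fderiv_hom φ hhom _ (inv_pos.mpr hxn) x
  have hlt : (fun y => fderiv ℝ φ y e) e < (fun y => fderiv ℝ φ y e) (‖x‖⁻¹ • x) := by
    show fderiv ℝ φ e e < fderiv ℝ φ (‖x‖⁻¹ • x) e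
    rw [hfx, fderiv_euler φ hφ hhom e he0]
    exact hcon
  have hf : ContinuousOn (fun y => fderiv ℝ φ y e) {0}ᶜ := by
    have h1 : ContinuousOn (fderiv ℝ φ) {0}ᶜ :=
      hφ.continuousOn_fderiv_of_isOpen isOpen_compl_singleton (by norm_num)
    exact h1.clm_apply continuousOn_const
  obtain ⟨δ, hδ, harg⟩ := argmax (fun y => fderiv ℝ φ y e) hf
    (fun t ht y => by simp only [fderiv_hom φ hhom t ht y])
    (fun y => by simp only [odd_fderiv φ hodd y]) e he _ hx1 hlt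
  obtain ⟨M, hM⟩ := bound B hB hpos e he δ hδ
  obtain ⟨ε, hε, y, hy, hye, hmax⟩ := harg (max M 0 + 1) (by positivity)
  obtain ⟨b, hb, hbx, hbe⟩ := exists_b y e
  have h1 := point_ineq φ hφ B hB hBs hpos heq y e b hy he hb hbx hbe (by linarith)
    (max M 0 + 1) ε (by positivity) hε hmax
  have h2 := hM y b hy hye hb hbx hbe
  linarith [le_max_left M 0]

end WRatio
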