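import Pool.Agent.Helper729.WR.Defs
import Pool.Agent.Helper729.WR.P_odd_fderiv



namespace WRatio



theorem odd_hess (f : EE 3 → ℝ) (hodd : ∀ x, f (-x) = - f x) (x : EE 3) :
    hess f (-x) = - hess f x := by
  unfold hess
  have h1 : (fun y => fderiv ℝ f (-y)) = fderiv ℝ f := funext fun y => odd_fderiv f hodd y
  have h2 : fderiv ℝ ((fderiv ℝ f) ∘ (ContinuousLinearEquiv.neg ℝ : EE 3 ≃L[ℝ] EE 3)) x
      = (fderiv ℝ (fderiv ℝ f) ((ContinuousLinearEquiv.neg ℝ : EE 3 ≃L[ℝ] EE 3) x)).comp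
        ((ContinuousLinearEquiv.neg ℝ : EE 3 ≃L[ℝ] EE 3) : EE 3 →L[ℝ] EE 3) :=
    ContinuousLinearEquiv.comp_right_fderiv _
  have h3 : (fderiv ℝ f) ∘ (ContinuousLinearEquiv.neg ℝ : EE 3 ≃L[ℝ] EE 3) = fderiv ℝ f := h1
  rw [h3] at h2
  rw [h2]
  ext v w
  simp

end WRatio
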