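import Pool.Agent.Helper729.WR.Defs



namespace WRatio



theorem pos_off (A : EE 3 →L[ℝ] EE 3 →L[ℝ] ℝ) (hs : ∀ v w, A v w = A w v) (x : EE 3) (hx0 : x ≠ 0)
    (hx : ∀ v, A x v = 0) (hpos : ∀ v, v ≠ 0 → inner ℝ v x = 0 → 0 < A v v)
    (v : EE 3) (hv : ∀ t : ℝ, v ≠ t • x) : 0 < A v v := by
  have hxx : (inner ℝ x x : ℝ) ≠ 0 := inner_self_ne_zero.mpr hx0
  set t : ℝ := inner ℝ v x / inner ℝ x x with ht
  set v' : EE 3 := v - t • x with hv'
  have hv0 : v' ≠ 0 := fun h => hv t (sub_eq_zero.mp h)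
  have horth : inner ℝ v' x = (0:ℝ) := by
    rw [hv', inner_sub_left, real_inner_smul_left, ht, div_mul_cancel₀ _ hxx, sub_self]
  have h1 : A v' v' = A v v := by
    have hxs : ∀ w, A w x = 0 := fun w => by rw [hs, hx]
    have e1 : A v' = A v - t • A x := by rw [hv', map_sub, map_smul]
    have e2 : A x = 0 := by
      ext w
      rw [hx]; rfl
    rw [e1, e2, smul_zero, sub_zero, hv', map_sub, map_smul, hxs, smul_zero, sub_zero]
  rw [← h1]
  exact hpos v' hv0 horth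

end WRatio
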