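import Pool.Agent.Helper729.WR.Defs



namespace WRatio



theorem sq_bdd (K : Set (EE 3)) (hK2 : IsCompact K) (u : EE 3) :
    BddAbove ((fun x => inner ℝ x u) '' K) := by
  have hc : Continuous (fun x : EE 3 => inner ℝ x u) := continuous_id.inner continuous_const
  exact (hK2.image hc).bddAbove

theorem sq_sub (H K : Set (EE 3)) (hH2 : IsCompact H) (hK : Convex ℝ K) (hK2 : IsCompact K)
    (hK3 : K.Nonempty) (h : ∀ u, supp H u ≤ supp K u) : H ⊆ K := by
  intro x hx
  by_contra hxK
  obtain ⟨f, c, hf1, hf2⟩ := geometric_hahn_banach_closed_point hK hK2.isClosed hxK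
  set v : EE 3 := (InnerProductSpace.toDual ℝ (EE 3)).symm f with hv
  have hfv : ∀ y : EE 3, f y = inner ℝ y v := by
    intro y
    rw [real_inner_comm, hv, InnerProductSpace.toDual_symm_apply]
  have h1 : supp K v ≤ c := by
    unfold supp
    apply csSup_le (hK3.image _)
    rintro _ ⟨y, hy, rfl⟩
    have := hf1 y hy
    rw [hfv] at this
    exact this.le
  have h2 : inner ℝ x v ≤ supp H v := by
    unfold supp
    exact le_csSup (sq_bdd H hH2 v) ⟨x, hx, rfl⟩
  have h3 := h v
  rw [hfv] at hf2
  linarith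

theorem sq_trans (K : Set (EE 3)) (hK2 : IsCompact K) (hK3 : K.Nonempty) (a u : EE 3) :
    supp ((fun x => x + a) '' K) u = supp K u + inner ℝ a u := by
  have hc2 : IsCompact ((fun x => x + a) '' K) :=
    hK2.image (continuous_id.add continuous_const)
  apply le_antisymm
  · unfold supp
    apply csSup_le ((hK3.image _).image _)
    rintro _ ⟨_, ⟨y, hy, rfl⟩, rfl⟩
    have h1 : inner ℝ y u ≤ sSup ((fun x => inner ℝ x u) '' K) :=
      le_csSup (sq_bdd K hK2 u) ⟨y, hy, rfl⟩
    show inner ℝ (y + a) u ≤ _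
    rw [inner_add_left]
    linarith
  · have h2 : supp K u ≤ supp ((fun x => x + a) '' K) u - inner ℝ a u := by
      unfold supp
      apply csSup_le (hK3.image _)
      rintro _ ⟨y, hy, rfl⟩
      have h1 : inner ℝ (y + a) u ≤ sSup ((fun x => inner ℝ x u) '' ((fun x => x + a) '' K)) :=
        le_csSup (sq_bdd _ hc2 u) ⟨y + a, ⟨y, hy, rfl⟩, rfl⟩
      rw [inner_add_left] at h1
      show inner ℝ y u ≤ _
      linarith
    linarith

theorem supp_eq (H K : Set (EE 3)) (hH : Convex ℝ H) (hH2 : IsCompact H) (hH3 : H.Nonempty)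
    (hK : Convex ℝ K) (hK2 : IsCompact K) (hK3 : K.Nonempty) (a : EE 3)
    (h : ∀ u, supp H u = supp K u + inner ℝ a u) : H = (fun x => x + a) '' K := by
  have hc2 : IsCompact ((fun x => x + a) '' K) :=
    hK2.image (continuous_id.add continuous_const)
  have hconv : Convex ℝ ((fun x => x + a) '' K) := by
    have := hK.translate a
    have e : (fun x => x + a) '' K = (fun z => a + z) '' K := by
      congr 1
      funext x
      exact add_comm x a
    rw [e]
    exact this
  apply Set.Subset.antisymm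
  · apply sq_sub H _ hH2 hconv hc2 (hK3.image _)
    intro u
    rw [sq_trans K hK2 hK3, h]
  · apply sq_sub _ H hc2 hH hH2 hH3
    intro u
    rw [sq_trans K hK2 hK3, h]

end WRatio
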