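import Pool.Agent.Helper729.WR.Defs



namespace WRatio



open scoped Pointwise in
theorem supp_hom_aux33632 {n : ℕ} (K : Set (EE n)) (t : ℝ) (ht : 0 < t) (x : EE n) :
    supp K (t • x) = t * supp K x := by
  unfold supp
  have h1 : ((fun y => inner ℝ y (t • x)) '' K : Set ℝ) = t • ((fun y => inner ℝ y x) '' K : Set ℝ) := by
    ext z
    simp only [Set.mem_image, Set.mem_smul_set, exists_exists_and_eq_and, inner_smul_right,
      smul_eq_mul]
  rw [h1, Real.sSup_smul_of_nonneg ht.le, smul_eq_mul]

theorem supp_hom {n : ℕ} (K : Set (EE n)) (t : ℝ) (ht : 0 < t) (x : EE n) :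
    supp K (t • x) = t * supp K x := by
  exact supp_hom_aux33632 K t ht x

end WRatio
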