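import Pool.Agent.Helper729.WR.P_additive_of
import Pool.Agent.Helper729.WR.P_argmax
import Pool.Agent.Helper729.WR.P_bound
import Pool.Agent.Helper729.WR.P_det3_sq
import Pool.Agent.Helper729.WR.P_det_basis
import Pool.Agent.Helper729.WR.P_e2_pos
import Pool.Agent.Helper729.WR.P_exists_b
import Pool.Agent.Helper729.WR.P_fderiv_euler
import Pool.Agent.Helper729.WR.P_fderiv_hom
import Pool.Agent.Helper729.WR.P_final_ineq
import Pool.Agent.Helper729.WR.P_hess_C1
import Pool.Agent.Helper729.WR.P_hess_hom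
import Pool.Agent.Helper729.WR.P_hess_kernel
import Pool.Agent.Helper729.WR.P_hess_sub
import Pool.Agent.Helper729.WR.P_hess_symm
import Pool.Agent.Helper729.WR.P_key_alg
import Pool.Agent.Helper729.WR.P_line_derivs
import Pool.Agent.Helper729.WR.P_linear_rep
import Pool.Agent.Helper729.WR.P_minor_eq
import Pool.Agent.Helper729.WR.P_mixed_eq
import Pool.Agent.Helper729.WR.P_mp_main
import Pool.Agent.Helper729.WR.P_notpar_b
import Pool.Agent.Helper729.WR.P_notpar_e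
import Pool.Agent.Helper729.WR.P_odd_fderiv
import Pool.Agent.Helper729.WR.P_odd_hess
import Pool.Agent.Helper729.WR.P_pde_deriv
import Pool.Agent.Helper729.WR.P_point_ineq
import Pool.Agent.Helper729.WR.P_pol_zero
import Pool.Agent.Helper729.WR.P_pos_off
import Pool.Agent.Helper729.WR.P_second_test
import Pool.Agent.Helper729.WR.P_supp_eq
import Pool.Agent.Helper729.WR.P_supp_hom
import Pool.Agent.Helper729.WR.P_third_symm
import Pool.Agent.Helper729.WR.P_wder_e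
import Pool.Agent.Helper729.WR.P_wder_v
import Pool.Agent.Helper729.WR.P_wfun_hom
import Pool.Agent.Helper729.WR.P_wfun_line_e
import Pool.Agent.Helper729.WR.P_wfun_line_v

namespace WRatio

theorem hom_zero (h : EE 3 → ℝ) (hhom : ∀ t : ℝ, 0 < t → ∀ x, h (t • x) = t * h x) : h 0 = 0 := by
  have := hhom 2 (by norm_num) 0
  rw [smul_zero] at this
  linarith

theorem unit_dec (x : EE 3) (hx : x ≠ 0) :
    0 < ‖x‖ ∧ ‖(‖x‖⁻¹ • x)‖ = 1 ∧ x = ‖x‖ • (‖x‖⁻¹ • x) := by
  have h0 : 0 < ‖x‖ := norm_pos_iff.mpr hx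
  refine ⟨h0, ?_, ?_⟩
  · rw [norm_smul, norm_inv, norm_norm, inv_mul_cancel₀ h0.ne']
  · rw [smul_smul, mul_inv_cancel₀ h0.ne', one_smul]

theorem e2_smul (c : ℝ) (A : EE 3 →L[ℝ] EE 3 →L[ℝ] ℝ) : e2 (c • A) = c ^ 2 * e2 A := by
  simp only [e2, ContinuousLinearMap.smul_apply, smul_eq_mul]
  ring

theorem contDiff_e2 (A : EE 3 → (EE 3 →L[ℝ] EE 3 →L[ℝ] ℝ)) (s : Set (EE 3))
    (hA : ContDiffOn ℝ 1 A s) : ContDiffOn ℝ 1 (fun x => e2 (A x)) s := by
  have hE : ∀ v w : EE 3, ContDiffOn ℝ 1 (fun x => A x v w) s := fun v w =>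
    (hA.clm_apply contDiffOn_const).clm_apply contDiffOn_const
  unfold e2
  exact (((((hE _ _).mul (hE _ _)).sub ((hE _ _).pow 2)).add ((hE _ _).mul (hE _ _))).sub
    ((hE _ _).pow 2)).add ((hE _ _).mul (hE _ _)) |>.sub ((hE _ _).pow 2)

theorem smul_gen {F : Type*} [NormedAddCommGroup F] [NormedSpace ℝ F] {s : Set (EE 3)}
    {c : EE 3 → ℝ} {A : EE 3 → F}
    (hc : ContDiffOn ℝ 1 c s) (hA : ContDiffOn ℝ 1 A s) :
    ContDiffOn ℝ 1 (fun x => c x • A x) s := hc.smul hA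

theorem contDiff_smulCLM {s : Set (EE 3)} {c : EE 3 → ℝ} {A : EE 3 → (EE 3 →L[ℝ] EE 3 →L[ℝ] ℝ)}
    (hc : ContDiffOn ℝ 1 c s) (hA : ContDiffOn ℝ 1 A s) :
    ContDiffOn ℝ 1 (fun x => c x • A x) s :=
  smul_gen (F := EE 3 →L[ℝ] EE 3 →L[ℝ] ℝ) hc hA

theorem pos_gen (K : Set (EE 3)) (hK : ClassPlus 3 K) (x : EE 3) (hx : x ≠ 0) (v : EE 3)
    (hv : v ≠ 0) (hvx : inner ℝ v x = 0) : 0 < hess (supp K) x v v := by
  obtain ⟨h0, h1, h2⟩ := unit_dec x hx
  have h3 := hess_hom (supp K) (fun t ht x => supp_hom K t ht x) ‖x‖ h0 (‖x‖⁻¹ • x)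
  rw [← h2] at h3
  rw [h3]
  have h4 := hK.pos (‖x‖⁻¹ • x) h1 v hv (by rw [inner_smul_right, hvx, mul_zero])
  simp only [ContinuousLinearMap.smul_apply, smul_eq_mul]
  positivity

theorem prod_e2 (K : Set (EE 3)) (hK : ClassPlus 3 K) (u : EE 3) (hu : ‖u‖ = 1) :
    prodRadii K u = e2 (hess (supp K) u) := by
  have hu0 : u ≠ 0 := by
    intro h
    rw [h, norm_zero] at hu
    exact zero_ne_one hu
  exact det_basis (hess (supp K) u) (fun v w => hess_symm _ hK.smooth u hu0 v w) u hu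
    (fun v => hess_kernel _ hK.smooth (fun t ht x => supp_hom K t ht x) u hu0 v)

theorem main (H K : Set (EE 3)) (hH : ClassPlus 3 H) (hK : ClassPlus 3 K)
    (hw : ∀ u : EE 3, ‖u‖ = 1 → width H u = width K u)
    (hτ : ∀ u : EE 3, ‖u‖ = 1 → tau H (-u) * tau K u = tau K (-u) * tau H u) :
    ∃ a : EE 3, H = (fun x => x + a) '' K := by
  set h := supp H with hdef
  set k := supp K with kdef
  have homh : ∀ t : ℝ, 0 < t → ∀ x, h (t • x) = t * h x := fun t ht x => supp_hom H t ht x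
  have homk : ∀ t : ℝ, 0 < t → ∀ x, k (t • x) = t * k x := fun t ht x => supp_hom K t ht x
  have sh : ContDiffOn ℝ 3 h {0}ᶜ := hH.smooth
  have sk : ContDiffOn ℝ 3 k {0}ᶜ := hK.smooth
  let φ : EE 3 → ℝ := fun y => h y - k y
  have hφ : ContDiffOn ℝ 3 φ {0}ᶜ := sh.sub sk
  have homφ : ∀ t : ℝ, 0 < t → ∀ x, φ (t • x) = t * φ x := by
    intro t ht x
    simp only [φ, homh t ht, homk t ht]
    ring
  have oddφ : ∀ x, φ (-x) = - φ x := by
    intro x
    by_cases hx : x = 0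
    · subst hx
      rw [neg_zero, hom_zero φ homφ, neg_zero]
    · obtain ⟨h0, h1, h2⟩ := unit_dec x hx
      have h3 := hw _ h1
      have h4 : φ (-(‖x‖⁻¹ • x)) = - φ (‖x‖⁻¹ • x) := by
        simp only [φ]
        unfold width at h3
        linarith
      have h5 := homφ ‖x‖ h0 (‖x‖⁻¹ • x)
      have h6 := homφ ‖x‖ h0 (-(‖x‖⁻¹ • x))
      rw [smul_neg, ← h2] at h6
      rw [← h2] at h5
      rw [h6, h5, h4]
      ring
  -- the four forms
  have symh : ∀ x, x ≠ 0 → ∀ v w, hess h x v w = hess h x w v := fun x hx v w =>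
    hess_symm h sh x hx v w
  have symk : ∀ x, x ≠ 0 → ∀ v w, hess k x v w = hess k x w v := fun x hx v w =>
    hess_symm k sk x hx v w
  have kerh : ∀ x, x ≠ 0 → ∀ v, hess h x x v = 0 := fun x hx v => hess_kernel h sh homh x hx v
  have kerk : ∀ x, x ≠ 0 → ∀ v, hess k x x v = 0 := fun x hx v => hess_kernel k sk homk x hx v
  have kerh' : ∀ x, x ≠ 0 → ∀ v, hess h (-x) x v = 0 := by
    intro x hx v
    have := kerh (-x) (neg_ne_zero.mpr hx) v
    rw [map_neg, ContinuousLinearMap.neg_apply] at this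
    linarith
  have kerk' : ∀ x, x ≠ 0 → ∀ v, hess k (-x) x v = 0 := by
    intro x hx v
    have := kerk (-x) (neg_ne_zero.mpr hx) v
    rw [map_neg, ContinuousLinearMap.neg_apply] at this
    linarith
  have posh : ∀ x, x ≠ 0 → ∀ v, v ≠ 0 → inner ℝ v x = 0 → 0 < hess h x v v := fun x hx v hv hvx =>
    pos_gen H hH x hx v hv hvx
  have posk : ∀ x, x ≠ 0 → ∀ v, v ≠ 0 → inner ℝ v x = 0 → 0 < hess k x v v := fun x hx v hv hvx =>
    pos_gen K hK x hx v hv hvx
  have posh' : ∀ x, x ≠ 0 → ∀ v, v ≠ 0 → inner ℝ v x = 0 → 0 < hess h (-x) v v :=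
    fun x hx v hv hvx => posh (-x) (neg_ne_zero.mpr hx) v hv (by rw [inner_neg_right, hvx, neg_zero])
  have posk' : ∀ x, x ≠ 0 → ∀ v, v ≠ 0 → inner ℝ v x = 0 → 0 < hess k (-x) v v :=
    fun x hx v hv hvx => posk (-x) (neg_ne_zero.mpr hx) v hv (by rw [inner_neg_right, hvx, neg_zero])
  have eh : ∀ x, x ≠ 0 → 0 < e2 (hess h x) := fun x hx =>
    e2_pos _ (symh x hx) x hx (kerh x hx) (posh x hx)
  have ek : ∀ x, x ≠ 0 → 0 < e2 (hess k x) := fun x hx =>
    e2_pos _ (symk x hx) x hx (kerk x hx) (posk x hx)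
  -- the ratio
  have ratio : ∀ x, x ≠ 0 →
      e2 (hess h (-x)) * e2 (hess k x) = e2 (hess k (-x)) * e2 (hess h x) := by
    intro x hx
    obtain ⟨h0, h1, h2⟩ := unit_dec x hx
    set u := ‖x‖⁻¹ • x with hu
    have hu0 : u ≠ 0 := by
      intro h
      rw [h, norm_zero] at h1
      exact zero_ne_one h1
    have hr := hτ u h1
    have hn : ‖-u‖ = 1 := by rw [norm_neg]; exact h1
    unfold tau at hr
    rw [prod_e2 H hH (-u) hn, prod_e2 K hK u h1, prod_e2 K hK (-u) hn, prod_e2 H hH u h1,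
      ← mul_inv, ← mul_inv] at hr
    have hr2 := inv_injective hr
    have a1 := hess_hom h homh ‖x‖ h0 u
    have a2 := hess_hom k homk ‖x‖ h0 u
    have a3 := hess_hom h homh ‖x‖ h0 (-u)
    have a4 := hess_hom k homk ‖x‖ h0 (-u)
    rw [smul_neg] at a3 a4
    rw [← h2] at a1 a2 a3 a4
    rw [a1, a2, a3, a4, e2_smul, e2_smul, e2_smul, e2_smul]
    calc _ = (‖x‖⁻¹ ^ 2) ^ 2 * (e2 (hess h (-u)) * e2 (hess k u)) := by ring
      _ = (‖x‖⁻¹ ^ 2) ^ 2 * (e2 (hess k (-u)) * e2 (hess h u)) := by rw [hr2]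
      _ = _ := by ring
  have hessφ : ∀ x, x ≠ 0 → hess φ x = hess h x - hess k x := fun x hx => hess_sub h k sh sk x hx
  let B : EE 3 → (EE 3 →L[ℝ] EE 3 →L[ℝ] ℝ) := fun x =>
    e2 (hess h (-x)) • (hess h x + hess k x) + e2 (hess h x) • (hess h (-x) + hess k (-x))
  have negmaps : Set.MapsTo (fun x : EE 3 => -x) ({0}ᶜ : Set (EE 3)) {0}ᶜ := by
    intro x hx
    simpa using hx
  have c1 : ContDiffOn ℝ 1 (hess h) {0}ᶜ := hess_C1 h sh
  have c2 : ContDiffOn ℝ 1 (hess k) {0}ᶜ := hess_C1 k sk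
  have c3 : ContDiffOn ℝ 1 (fun x => hess h (-x)) {0}ᶜ := c1.comp contDiff_neg.contDiffOn negmaps
  have c4 : ContDiffOn ℝ 1 (fun x => hess k (-x)) {0}ᶜ := c2.comp contDiff_neg.contDiffOn negmaps
  have hB : ContDiffOn ℝ 1 B {0}ᶜ := by
    have s1 := contDiff_smulCLM (c := fun x => e2 (hess h (-x)))
      (A := fun x => hess h x + hess k x) (contDiff_e2 _ _ c3) (c1.add c2)
    have s2 := contDiff_smulCLM (c := fun x => e2 (hess h x))
      (A := fun x => hess h (-x) + hess k (-x)) (contDiff_e2 _ _ c1) (c3.add c4)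
    exact s1.add s2
  have hBs : ∀ x, x ≠ 0 → ∀ v w, B x v w = B x w v := by
    intro x hx v w
    have hnx : -x ≠ 0 := neg_ne_zero.mpr hx
    simp only [B, ContinuousLinearMap.add_apply, ContinuousLinearMap.smul_apply]
    rw [symh x hx v w, symk x hx v w, symh (-x) hnx v w, symk (-x) hnx v w]
  have hBpos : ∀ x, x ≠ 0 → ∀ v, (∀ t : ℝ, v ≠ t • x) → 0 < B x v v := by
    intro x hx v hv
    have hnx : -x ≠ 0 := neg_ne_zero.mpr hx
    have p1 := pos_off (hess h x) (symh x hx) x hx (kerh x hx) (posh x hx) v hv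
    have p2 := pos_off (hess k x) (symk x hx) x hx (kerk x hx) (posk x hx) v hv
    have p3 := pos_off (hess h (-x)) (symh (-x) hnx) x hx (kerh' x hx) (posh' x hx) v hv
    have p4 := pos_off (hess k (-x)) (symk (-x) hnx) x hx (kerk' x hx) (posk' x hx) v hv
    have q1 := eh x hx
    have q2 := eh (-x) hnx
    simp only [B, ContinuousLinearMap.add_apply, ContinuousLinearMap.smul_apply, smul_eq_mul]
    positivity
  have heq : ∀ x, x ≠ 0 → ∀ v w, B x v v * hess φ x w w + B x w w * hess φ x v v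
      - 2 * B x v w * hess φ x v w = 0 := by
    intro x hx v w
    have hnx : -x ≠ 0 := neg_ne_zero.mpr hx
    rw [hessφ x hx]
    refine key_alg (hess h x) (hess k x) (hess h (-x)) (hess k (-x)) x hx (symh x hx) (symk x hx)
      (symh (-x) hnx) (symk (-x) hnx) (kerh x hx) (kerk x hx) (kerh' x hx) (kerk' x hx) ?_
      (ratio x hx) v w
    rw [← hessφ x hx, ← hessφ (-x) hnx, odd_hess φ oddφ x]
    exact (neg_neg (hess φ x)).symm
  have hmp : ∀ e : EE 3, ‖e‖ = 1 → ∀ x, x ≠ 0 → fderiv ℝ φ x e ≤ φ e := fun e he x hx =>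
    mp_main φ hφ homφ oddφ B hB hBs hBpos heq e he x hx
  have hadd := additive_of φ homφ oddφ (fun x hx => fderiv_euler φ hφ homφ x hx) hmp
  obtain ⟨a, ha⟩ := linear_rep φ hadd homφ oddφ
  refine ⟨a, supp_eq H K hH.convex hH.compact (hH.interior_nonempty.mono interior_subset) hK.convex
    hK.compact (hK.interior_nonempty.mono interior_subset) a ?_⟩
  intro u
  have := ha u
  simp only [φ] at this
  linarith

end WRatio
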