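import Pool.Agent.Helper729.WR.Defs



namespace WRatio



theorem additive_of (f : EE 3 → ℝ) (hhom : ∀ t : ℝ, 0 < t → ∀ x, f (t • x) = t * f x)
    (hodd : ∀ x, f (-x) = - f x) (heuler : ∀ x, x ≠ 0 → fderiv ℝ f x x = f x)
    (hmp : ∀ e : EE 3, ‖e‖ = 1 → ∀ x, x ≠ 0 → fderiv ℝ f x e ≤ f e) :
    ∀ x y, f (x + y) = f x + f y := by
  have h0 : f 0 = 0 := by
    have := hodd 0
    rw [neg_zero] at this
    linarith
  have hmp' : ∀ e x : EE 3, x ≠ 0 → fderiv ℝ f x e ≤ f e := by
    intro e x hx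
    by_cases he : e = 0
    · subst he
      rw [map_zero, h0]
    · have hn : 0 < ‖e‖ := norm_pos_iff.2 he
      have hu : ‖(‖e‖⁻¹ • e)‖ = 1 := by
        rw [norm_smul, norm_inv, norm_norm, inv_mul_cancel₀ hn.ne']
      have h1 := hmp _ hu x hx
      have h2 := hhom ‖e‖⁻¹ (inv_pos.2 hn) e
      rw [h2, map_smul, smul_eq_mul] at h1
      exact le_of_mul_le_mul_left h1 (inv_pos.2 hn)
  have hsub : ∀ x y, f (x + y) ≤ f x + f y := by
    intro x y
    by_cases h : x + y = 0
    · have hy : y = -x := by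
        rw [eq_neg_iff_add_eq_zero, add_comm]; exact h
      rw [hy, hodd x]
      simp [h0]
    · rw [← heuler _ h, map_add]
      exact add_le_add (hmp' x _ h) (hmp' y _ h)
  intro x y
  apply le_antisymm (hsub x y)
  have h1 := hsub (-x) (-y)
  have h2 : -x + -y = -(x + y) := by abel
  rw [h2, hodd, hodd, hodd] at h1
  linarith

end WRatio
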