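import Pool.Agent.Helper729.WR.Defs
import Pool.Agent.Helper729.WR.P_fderiv_hom



namespace WRatio



theorem hess_hom (h : EE 3 → ℝ) (hhom : ∀ t : ℝ, 0 < t → ∀ x, h (t • x) = t * h x)
    (t : ℝ) (ht : 0 < t) (x : EE 3) : hess h (t • x) = t⁻¹ • hess h x := by
  have h1 : ∀ y, fderiv ℝ h (t • y) = fderiv ℝ h y := by
    intro y
    have e1 : fderiv ℝ (fun z => h (t • z)) y = t • fderiv ℝ h (t • y) := fderiv_comp_smul t
    have e2 : (fun z => h (t • z)) = fun z => t • h z := by
      funext z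
      rw [hhom t ht z, smul_eq_mul]
    have e3 : fderiv ℝ (fun z => t • h z) y = t • fderiv ℝ h y := by
      have := congrFun (fderiv_const_smul_field (𝕜 := ℝ) (f := h) t) y
      exact this
    rw [e2, e3] at e1
    exact (smul_right_injective _ ht.ne' e1).symm
  unfold hess
  have e1 : fderiv ℝ (fun z => fderiv ℝ h (t • z)) x = t • fderiv ℝ (fderiv ℝ h) (t • x) :=
    fderiv_comp_smul t
  have e2 : (fun z => fderiv ℝ h (t • z)) = fderiv ℝ h := funext h1
  rw [e2] at e1
  rw [e1, smul_smul, inv_mul_cancel₀ ht.ne', one_smul]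

end WRatio
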